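import Pool.Agent.H261.DR.Solve

set_option autoImplicit false

/-!
# The algebra on the interval
-/

open Set Filter Topology

namespace Pool.Agent.H261.DR

variable (S : Setup)

/-- The algebra of all `f` with `f ∘ Φ ∈ ℂ + I 0`. -/
noncomputable def alg : Subalgebra ℂ C(unitInterval, ℂ) where
  carrier := {f | ∃ c : ℂ, f.comp S.Φ - algebraMap ℂ C(Y, ℂ) c ∈ I 0}
  mul_mem' := by
    rintro f g ⟨c, hc⟩ ⟨d, hd⟩
    refine ⟨c * d, ?_⟩
    have : (f * g).comp S.Φ - algebraMap ℂ C(Y, ℂ) (c * d) =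
        (f.comp S.Φ - algebraMap ℂ C(Y, ℂ) c) * (g.comp S.Φ - algebraMap ℂ C(Y, ℂ) d) +
        (c • (g.comp S.Φ - algebraMap ℂ C(Y, ℂ) d) +
          d • (f.comp S.Φ - algebraMap ℂ C(Y, ℂ) c)) := by
      ext ω
      simp
      ring
    rw [this]
    exact add_mem (mul_mem_I hc hd) (add_mem (Submodule.smul_mem _ _ hd) (Submodule.smul_mem _ _ hc))
  add_mem' := by
    rintro f g ⟨c, hc⟩ ⟨d, hd⟩
    refine ⟨c + d, ?_⟩
    have : (f + g).comp S.Φ - algebraMap ℂ C(Y, ℂ) (c + d) =
        (f.comp S.Φ - algebraMap ℂ C(Y, ℂ) c) + (g.comp S.Φ - algebraMap ℂ C(Y, ℂ) d) := by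
      ext ω
      simp
      ring
    rw [this]
    exact add_mem hc hd
  algebraMap_mem' := by
    intro r
    refine ⟨r, ?_⟩
    have : (algebraMap ℂ C(unitInterval, ℂ) r).comp S.Φ - algebraMap ℂ C(Y, ℂ) r = 0 := by
      ext ω
      simp
    rw [this]
    exact zero_mem _

lemma mem_alg {f : C(unitInterval, ℂ)} :
    f ∈ alg S ↔ ∃ c : ℂ, f.comp S.Φ - algebraMap ℂ C(Y, ℂ) c ∈ I 0 := Iff.rfl

lemma isClosed_alg : IsClosed (alg S : Set C(unitInterval, ℂ)) := by
  let W : Submodule ℂ C(Y, ℂ) := I 0 ⊔ Submodule.span ℂ {(1 : C(Y, ℂ))}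
  have hW : IsClosed (W : Set C(Y, ℂ)) :=
    Submodule.isClosed_sup_finiteDimensional _ _ (isClosed_I 0)
  have : (alg S : Set C(unitInterval, ℂ)) = (fun f : C(unitInterval, ℂ) => f.comp S.Φ) ⁻¹' W := by
    ext f
    change (∃ c : ℂ, f.comp S.Φ - algebraMap ℂ C(Y, ℂ) c ∈ I 0) ↔ f.comp S.Φ ∈ W
    rw [Submodule.mem_sup]
    constructor
    · rintro ⟨c, hc⟩
      refine ⟨_, hc, algebraMap ℂ C(Y, ℂ) c, ?_, by ring⟩
      rw [Submodule.mem_span_singleton]
      exact ⟨c, (Algebra.algebraMap_eq_smul_one c).symm⟩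
    · rintro ⟨F, hF, z, hz, h⟩
      obtain ⟨c, rfl⟩ := Submodule.mem_span_singleton.1 hz
      refine ⟨c, ?_⟩
      rw [← h, Algebra.algebraMap_eq_smul_one]
      simpa using hF
  rw [this]
  exact hW.preimage (ContinuousMap.continuous_precomp S.Φ)

lemma XK_empty : XK S ∅ = ⊤ := by
  rw [eq_top_iff]
  intro x _ ω hω
  exact absurd hω (Set.notMem_empty _)

lemma mem_JK_empty {F : C(Y, ℂ)} : F ∈ JK S ∅ ↔ F ∈ I 0 := by
  unfold JK
  rw [XK_empty, inf_top_eq]

lemma alg_ne_top : alg S ≠ ⊤ := by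
  intro h
  obtain ⟨e, -, -, he⟩ := claim2 S isClosed_empty (G := mon (Finsupp.single 0 (-1))) (F₀ := 0)
    (by rw [XK_empty]; trivial) (zero_mem _) (r := 2) (by
      rw [sub_zero]
      refine lt_of_le_of_lt ((ContinuousMap.norm_le _ zero_le_one).2 fun ω => ?_) one_lt_two
      rw [norm_mon_apply])
  rw [mem_JK_empty] at he
  have he2 : e ∈ alg S := by rw [h]; trivial
  obtain ⟨c, hc⟩ := he2
  refine conj_coord_notMem c _ (add_mem he hc) ?_
  ring

/-- The conjugate functional. -/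
noncomputable def conjL (L : StrongDual ℂ C(Y, ℂ)) : StrongDual ℂ C(Y, ℂ) :=
  LinearMap.mkContinuous
    { toFun := fun f => star (L (star f))
      map_add' := by intro f g; simp
      map_smul' := by intro c f; simp } ‖L‖ (by
        intro f
        have h : ‖star f‖ ≤ ‖f‖ := (ContinuousMap.norm_le _ (norm_nonneg _)).2 fun ω => by
          rw [ContinuousMap.star_apply, norm_star]; exact f.norm_coe_le_norm ω
        simp only [LinearMap.coe_mk, AddHom.coe_mk, norm_star]
        exact (L.le_opNorm _).trans (mul_le_mul_of_nonneg_left h (norm_nonneg _)))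

lemma conjL_apply (L : StrongDual ℂ C(Y, ℂ)) (f : C(Y, ℂ)) : conjL L f = star (L (star f)) := rfl

lemma dirichlet_alg (g : C(unitInterval, ℝ)) {ε : ℝ} (hε : 0 < ε) :
    ∃ f ∈ alg S, ∀ x, |(f x).re - g x| < ε := by
  -- the real subspace
  let C : Set C(Y, ℂ) := {H | ∃ F ∈ I 0, ∃ c : ℂ, ∃ w : C(unitInterval, ℝ),
    H = F + algebraMap ℂ C(Y, ℂ) c + Complex.I • (toC w).comp S.Φ}
  have hC : Convex ℝ C := by
    rintro _ ⟨F, hF, c, w, rfl⟩ _ ⟨F', hF', c', w', rfl⟩ a b ha hb hab
    refine ⟨(a : ℂ) • F + (b : ℂ) • F', ?_, a * c + b * c', a • w + b • w', ?_⟩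
    · exact add_mem (Submodule.smul_mem _ _ hF) (Submodule.smul_mem _ _ hF')
    · ext ω
      simp [toC_apply]
      ring
  have hmem : (toC g).comp S.Φ ∈ closure C := by
    by_contra hne
    obtain ⟨L, s, hLs, hLG⟩ := RCLike.geometric_hahn_banach_closed_point (𝕜 := ℂ) hC.closure
      isClosed_closure hne
    have hLC : ∀ H ∈ C, (L H).re < s := fun H hH => hLs H (subset_closure hH)
    have hLG' : s < (L ((toC g).comp S.Φ)).re := hLG
    have hs0 : 0 < s := by
      have := hLC 0 ⟨0, zero_mem _, 0, 0, by ext; simp [toC_apply]⟩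
      simpa using this
    have hI : ∀ F ∈ I 0, L F = 0 := by
      intro F hF
      refine eq_zero_of_re_bdd (C := s) fun c => ?_
      rw [← smul_eq_mul, ← map_smul]
      refine hLC _ ⟨c • F, Submodule.smul_mem _ _ hF, 0, 0, ?_⟩
      ext ω; simp [toC_apply]
    have hc : ∀ c : ℂ, L (algebraMap ℂ C(Y, ℂ) c) = 0 := by
      intro c
      refine eq_zero_of_re_bdd (C := s) fun d => ?_
      rw [← smul_eq_mul, ← map_smul]
      refine hLC _ ⟨0, zero_mem _, d * c, 0, ?_⟩
      ext ω; simp [toC_apply]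
    have hw : ∀ w : C(unitInterval, ℝ), (L ((toC w).comp S.Φ)).im = 0 := by
      intro w
      by_contra hne'
      set y := (L ((toC w).comp S.Φ)).im with hy
      have h1 := hLC (Complex.I • (toC ((-(s / y)) • w)).comp S.Φ)
        ⟨0, zero_mem _, 0, (-(s / y)) • w, by rw [map_zero, add_zero, zero_add]⟩
      have h2 : (toC ((-(s / y)) • w)).comp S.Φ = ((-(s / y) : ℝ) : ℂ) • (toC w).comp S.Φ := by
        ext ω; simp [toC_apply]
      rw [h2, map_smul, map_smul, smul_eq_mul, smul_eq_mul] at h1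
      have h3 : (Complex.I * (((-(s / y) : ℝ) : ℂ) * L ((toC w).comp S.Φ))).re = s := by
        simp only [Complex.mul_re, Complex.I_re, Complex.I_im, Complex.mul_im, Complex.ofReal_re,
          Complex.ofReal_im, ← hy]
        field_simp
        ring
      rw [h3] at h1
      exact lt_irrefl _ h1
    -- the functional `D`
    set D : StrongDual ℂ C(Y, ℂ) := L - conjL L with hD
    have hDapply : ∀ f, D f = L f - star (L (star f)) := fun f => rfl
    have hLtame : Tame S L := by
      refine AA.tame S fun ε₁ hε₁ => ⟨0, fun n _ F hF => ?_⟩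
      rw [hI F (I_anti (Nat.zero_le n) hF), norm_zero]
      positivity
    have hDtame : Tame S D := by
      intro ε₁ hε₁
      obtain ⟨N, hN⟩ := hLtame (ε₁ / 2) (half_pos hε₁)
      refine ⟨N, fun n hn φ hφ => ?_⟩
      rw [hDapply]
      have h1 := hN n hn φ hφ
      have h2 := hN n hn (star φ) (fun ω => by
        rw [ContinuousMap.star_apply, norm_star]; exact hφ ω)
      calc _ ≤ _ := norm_sub_le _ _
        _ ≤ ε₁ / 2 + ε₁ / 2 := add_le_add h1 (by rw [norm_star]; exact h2)
        _ = ε₁ := by ring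
    have hDΦ : ∀ f : C(unitInterval, ℂ), D (f.comp S.Φ) = 0 := by
      have hr : ∀ w : C(unitInterval, ℝ), D ((toC w).comp S.Φ) = 0 := by
        intro w
        have hst : star ((toC w).comp S.Φ) = (toC w).comp S.Φ := by
          ext ω; simp [toC_apply]
        rw [hDapply, hst]
        apply Complex.ext
        · simp
        · simp [hw w]
      intro f
      let a : C(unitInterval, ℝ) := ⟨fun x => (f x).re, by fun_prop⟩
      let b : C(unitInterval, ℝ) := ⟨fun x => (f x).im, by fun_prop⟩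
      have hf : f.comp S.Φ = (toC a).comp S.Φ + Complex.I • (toC b).comp S.Φ := by
        ext ω
        simp only [ContinuousMap.comp_apply, ContinuousMap.add_apply, ContinuousMap.smul_apply,
          smul_eq_mul, toC_apply, a, b, ContinuousMap.coe_mk]
        rw [mul_comm]
        exact (Complex.re_add_im _).symm
      rw [hf, map_add, map_smul, hr, hr]
      simp
    have hD0 : ∀ φ, D φ = 0 := by
      intro φ
      by_contra hne'
      have hpos : 0 < ‖D φ‖ := norm_pos_iff.2 hne'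
      obtain ⟨f, -, hf⟩ := hDtame.exists_factor S φ (half_pos hpos)
      rw [hDΦ, zero_sub, norm_neg] at hf
      linarith
    -- `L` is real on real functions
    have hreal : ∀ v : C(Y, ℝ), (L (toC v)).im = 0 := by
      intro v
      have hst : star (toC v) = toC v := by
        ext ω; simp [toC_apply]
      have h1 := hD0 (toC v)
      rw [hDapply, hst] at h1
      have h2 := congrArg Complex.im h1
      simp only [Complex.sub_im, Complex.star_def, Complex.conj_im, Complex.zero_im] at h2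
      linarith
    -- hence `L` kills real parts
    have hre : ∀ F ∈ I 0, ∀ c : ℝ, L (toC ⟨fun ω => (F ω).re + c, by fun_prop⟩) = 0 := by
      intro F hF c
      let a : C(Y, ℝ) := ⟨fun ω => (F ω).re, by fun_prop⟩
      let b : C(Y, ℝ) := ⟨fun ω => (F ω).im, by fun_prop⟩
      have hF' : F = toC a + Complex.I • toC b := by
        ext ω
        simp only [ContinuousMap.add_apply, ContinuousMap.smul_apply,
          smul_eq_mul, toC_apply, a, b, ContinuousMap.coe_mk]
        rw [mul_comm]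
        exact (Complex.re_add_im _).symm
      have h0 := hI F hF
      rw [hF', map_add, map_smul, smul_eq_mul] at h0
      have h1 := congrArg Complex.re h0
      simp only [Complex.add_re, Complex.mul_re, Complex.I_re, Complex.I_im, hreal b,
        Complex.zero_re] at h1
      have h2 : L (toC a) = 0 := Complex.ext (by simpa using h1) (hreal a)
      have h3 : toC (⟨fun ω => (F ω).re + c, by fun_prop⟩ : C(Y, ℝ)) =
          toC a + algebraMap ℂ C(Y, ℂ) (c : ℂ) := by
        ext ω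
        simp [toC_apply, a]
      rw [h3, map_add, h2, hc, add_zero]
    have hall : ∀ v : C(Y, ℝ), L (toC v) = 0 := by
      intro v
      by_contra hne'
      have hpos : 0 < ‖L (toC v)‖ := norm_pos_iff.2 hne'
      have hL0 : 0 ≤ ‖L‖ := norm_nonneg L
      obtain ⟨F, hF, c, hFc⟩ := exists_I_zero_re v (γ := ‖L (toC v)‖ / (2 * (‖L‖ + 1)))
        (by positivity)
      have h1 := hre F hF c
      set q : C(Y, ℝ) := ⟨fun ω => (F ω).re + c, by fun_prop⟩ with hq
      have h2 : ‖toC v - toC q‖ ≤ ‖L (toC v)‖ / (2 * (‖L‖ + 1)) := by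
        rw [ContinuousMap.norm_le _ (by positivity)]
        intro ω
        rw [ContinuousMap.sub_apply, toC_apply, toC_apply, ← Complex.ofReal_sub, Complex.norm_real]
        exact hFc ω
      have h3 : ‖L (toC v - toC q)‖ ≤ ‖L‖ * (‖L (toC v)‖ / (2 * (‖L‖ + 1))) :=
        (L.le_opNorm _).trans (by gcongr)
      rw [map_sub, h1, sub_zero, mul_div_assoc', le_div_iff₀ (by positivity)] at h3
      nlinarith
    have h1 := hall (g.comp S.Φ)
    have h2 : toC (g.comp S.Φ) = (toC g).comp S.Φ := rfl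
    rw [h2] at h1
    rw [h1, Complex.zero_re] at hLG'
    linarith
  obtain ⟨H, ⟨F, hF, c, w, rfl⟩, hd⟩ := Metric.mem_closure_iff.1 hmem ε hε
  rw [dist_eq_norm] at hd
  set G : C(Y, ℂ) := (toC g).comp S.Φ - algebraMap ℂ C(Y, ℂ) c - Complex.I • (toC w).comp S.Φ with hG
  have h1 : ‖G - F‖ < ε := by
    have : G - F = (toC g).comp S.Φ -
        (F + algebraMap ℂ C(Y, ℂ) c + Complex.I • (toC w).comp S.Φ) := by
      rw [hG]; abel
    rwa [this]
  obtain ⟨e, -, hen, he⟩ := claim2 S isClosed_empty (G := G) (F₀ := F)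
    (by rw [XK_empty]; trivial) ((mem_JK_empty S).2 hF) h1
  rw [mem_JK_empty] at he
  refine ⟨toC g - Complex.I • toC w - e, ⟨c, ?_⟩, fun x => ?_⟩
  · have : (toC g - Complex.I • toC w - e).comp S.Φ - algebraMap ℂ C(Y, ℂ) c =
        G - e.comp S.Φ := by
      rw [hG]
      ext ω
      simp
      ring
    rw [this]
    exact he
  · have h2 : ((toC g - Complex.I • toC w - e) x).re - g x = -(e x).re := by
      simp [toC_apply]
    rw [h2, abs_neg]
    exact ((Complex.abs_re_le_norm _).trans (e.norm_coe_le_norm x)).trans_lt hen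

lemma regular_alg {K : Set unitInterval} (hK : IsClosed K) {p : unitInterval} (hp : p ∉ K) :
    ∃ f ∈ alg S, f p = 1 ∧ ∀ x ∈ K, f x = 0 := by
  obtain ⟨ρ₀, hρ₀, hball⟩ := Metric.nhds_basis_closedBall.mem_iff.1
    (hK.isOpen_compl.mem_nhds (show p ∈ Kᶜ from hp))
  obtain ⟨χ, h01, h1, ρ, hρ, h0⟩ := exists_cutoff hK (P := Metric.closedBall p ρ₀)
    Metric.isClosed_closedBall (subset_compl_iff_disjoint_left.1 hball)
  obtain ⟨N₁, hN₁⟩ := exists_cut_XK S hρ h0
  obtain ⟨N₂, hN₂⟩ := exists_trunc_Φ S (half_pos hρ₀)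
  set k := max N₁ N₂ with hk
  obtain ⟨N₃, hN₃⟩ := S.re_ge (1 / 12) (by norm_num)
  set z : C(Y, ℂ) := mon (Finsupp.single k 1) with hz
  obtain ⟨m, hm, κ, hκ, hsep⟩ := S.sep z (1 / 2) (by norm_num) (max k N₃)
  obtain ⟨Fm, hFm, hFmre⟩ := hN₃ m ((le_max_right _ _).trans hm)
  have hkm : k ≤ m := (le_max_left _ _).trans hm
  have hzk : z ∈ I k := mon_mem_I ⟨k, le_rfl, by simp, fun i hi => by
    rw [Finsupp.single_apply, if_neg (by omega)]⟩
  have hznorm : ∀ ω, ‖z ω‖ = 1 := fun ω => norm_mon_apply _ _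
  obtain ⟨ζ, hζ, hζre⟩ : ∃ ζ : ℂ, ‖ζ‖ = 1 ∧ ∀ ω, S.u m ω < 1 → dist (S.Φ ω) p ≤ κ / 2 →
      1 / 2 ≤ (ζ * z ω).re := by
    by_cases hx : ∃ ω₀, S.u m ω₀ < 1 ∧ dist (S.Φ ω₀) p ≤ κ / 2
    · obtain ⟨ω₀, hu0, hd0⟩ := hx
      refine ⟨star (z ω₀), by rw [norm_star, hznorm], fun ω hu hd => ?_⟩
      have h2 := hsep ω ω₀ hu hu0 (by
        have := dist_triangle_right (S.Φ ω) (S.Φ ω₀) p
        linarith)
      have h3 : star (z ω₀) * z ω₀ = 1 := by
        have := Complex.conj_mul' (z ω₀)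
        rw [hznorm] at this
        simpa using this
      have h4 : ‖star (z ω₀) * z ω - 1‖ ≤ 1 / 2 := by
        rw [← h3, ← mul_sub, norm_mul, norm_star, hznorm, one_mul]
        exact h2
      have h5 := (abs_le.1 ((Complex.abs_re_le_norm _).trans h4)).1
      rw [Complex.sub_re, Complex.one_re] at h5
      linarith
    · push Not at hx
      refine ⟨1, by simp, fun ω hu hd => ?_⟩
      exact absurd hd (not_le.2 (hx ω hu))
  set F' : C(Y, ℂ) := ζ • z + (3 : ℂ) • Fm with hF'
  have hF'mem : F' ∈ I k := add_mem (Submodule.smul_mem _ _ hzk)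
    (Submodule.smul_mem _ _ (I_anti hkm hFm))
  have hF're : ∀ ω, dist (S.Φ ω) p ≤ κ / 2 → 1 / 4 ≤ (F' ω).re := by
    intro ω hω
    have e1 : (F' ω).re = (ζ * z ω).re + 3 * (Fm ω).re := by
      simp [hF']
    have e2 := hFmre ω
    rw [e1]
    rcases lt_or_ge (S.u m ω) 1 with h | h
    · have := hζre ω h hω
      have := S.u_nonneg m ω
      linarith
    · have h3 : ‖ζ * z ω‖ ≤ 1 := by rw [norm_mul, hζ, hznorm, one_mul]
      have h4 := (abs_le.1 ((Complex.abs_re_le_norm _).trans h3)).1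
      linarith
  set F : C(Y, ℂ) := (toC (χ.comp S.Φ)).comp (trunc k) * F' with hF
  have hFmem : F ∈ JK S K := by
    refine ⟨I_anti (Nat.zero_le k) (comp_trunc_mul_mem_I _ hF'mem), fun ω hω => ?_⟩
    have := hN₁ k (le_max_left _ _) ω hω
    simp only [hF, ContinuousMap.mul_apply, ContinuousMap.comp_apply, toC_apply, this]
    simp
  set ρ₁ : ℝ := min (κ / 2) (ρ₀ / 2) with hρ₁
  have hρ₁0 : 0 < ρ₁ := lt_min (half_pos hκ) (half_pos hρ₀)
  have hFre : ∀ ω, dist (S.Φ ω) p ≤ ρ₁ → 1 / 4 ≤ (F ω).re := by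
    intro ω hω
    have e1 : χ (S.Φ (trunc k ω)) = 1 := by
      refine h1 _ ?_
      rw [Metric.mem_closedBall]
      have e2 := hN₂ k (le_max_right _ _) ω
      have e3 := dist_triangle (S.Φ (trunc k ω)) (S.Φ ω) p
      have e4 : ρ₁ ≤ ρ₀ / 2 := min_le_right _ _
      linarith
    have e2 : F ω = F' ω := by
      simp only [hF, ContinuousMap.mul_apply, ContinuousMap.comp_apply, toC_apply, e1]
      simp
    rw [e2]
    exact hF're ω (hω.trans (min_le_left _ _))
  -- the peaking function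
  let lam : C(unitInterval, ℝ) := ⟨fun x => max 0 (1 - dist x p / ρ₁), by fun_prop⟩
  have hlam0 : ∀ x, 0 ≤ lam x := fun x => le_max_left _ _
  have hlam1 : ∀ x, lam x ≤ 1 := fun x => max_le zero_le_one (by
    have : 0 ≤ dist x p / ρ₁ := by positivity
    linarith)
  have hlamp : lam p = 1 := by simp [lam]
  have hlamd : ∀ x, 0 < lam x → dist x p ≤ ρ₁ := by
    intro x hx
    by_contra hne
    push Not at hne
    have : 1 < dist x p / ρ₁ := by rwa [one_lt_div hρ₁0]
    have h2 : lam x = 0 := max_eq_left (by linarith)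
    rw [h2] at hx
    exact lt_irrefl _ hx
  have hlamK : ∀ x ∈ K, lam x = 0 := by
    intro x hx
    by_contra hne
    have h2 := hlamd x (lt_of_le_of_ne (hlam0 x) (Ne.symm hne))
    have h3 : ρ₁ ≤ ρ₀ / 2 := min_le_right _ _
    exact hball (show x ∈ Metric.closedBall p ρ₀ by rw [Metric.mem_closedBall]; linarith) hx
  set M : ℝ := ‖F‖ + 1 with hM
  have hM1 : 1 ≤ M := by rw [hM]; linarith [norm_nonneg F]
  set t : ℝ := 1 / (4 * M ^ 2) with ht
  have ht0 : 0 < t := by positivity
  have ht1 : t ≤ 1 / 4 := by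
    rw [ht]
    apply one_div_le_one_div_of_le (by norm_num)
    nlinarith
  have htM : t ^ 2 * M ^ 2 = t / 4 := by
    rw [ht]; field_simp
  have hnorm : ‖toC (lam.comp S.Φ) - (t : ℂ) • F‖ < 1 := by
    have hle : ‖toC (lam.comp S.Φ) - (t : ℂ) • F‖ ≤ Real.sqrt (1 - t / 4) := by
      rw [ContinuousMap.norm_le _ (Real.sqrt_nonneg _)]
      intro ω
      apply Real.le_sqrt_of_sq_le
      rw [← Complex.normSq_eq_norm_sq]
      set a := lam (S.Φ ω) with ha
      have e1 : (toC (lam.comp S.Φ) - (t : ℂ) • F) ω = ((a : ℝ) : ℂ) - (t : ℂ) * F ω := by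
        simp [toC_apply, ha]
      have e2 : Complex.normSq (F ω) ≤ M ^ 2 := by
        rw [Complex.normSq_eq_norm_sq]
        have := F.norm_coe_le_norm ω
        have h3 : ‖F ω‖ ≤ M := by rw [hM]; linarith
        gcongr
      rw [e1, Complex.normSq_apply]
      rw [Complex.normSq_apply] at e2
      simp only [Complex.sub_re, Complex.sub_im, Complex.mul_re, Complex.mul_im, Complex.ofReal_re,
        Complex.ofReal_im]
      set x := (F ω).re with hx
      set y := (F ω).im with hy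
      have e3 : t ^ 2 * (x * x + y * y) ≤ t / 4 := by
        rw [← htM]; gcongr
      have ha0 : 0 ≤ a := hlam0 _
      have ha1 : a ≤ 1 := hlam1 _
      rcases ha0.eq_or_lt with h | h
      · rw [← h]
        nlinarith
      · have hx4 : 1 / 4 ≤ x := hFre ω (hlamd _ h)
        have e4 : a * t * (1 / 4) ≤ a * t * x := by gcongr
        have e5 : a ^ 2 ≤ a := by nlinarith
        have e6 : a * (1 - t / 2) ≤ 1 * (1 - t / 2) := by
          apply mul_le_mul_of_nonneg_right ha1; linarith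
        nlinarith
    refine hle.trans_lt ?_
    rw [Real.sqrt_lt' one_pos]
    linarith
  have hGX : toC (lam.comp S.Φ) ∈ XK S K := by
    intro ω hω
    have := hlamK _ hω
    rw [toC_apply, ContinuousMap.comp_apply, this, Complex.ofReal_zero]
  obtain ⟨e, heZ, hen, he⟩ := claim2 S hK hGX (Submodule.smul_mem _ (t : ℂ) hFmem) hnorm
  set f₀ : C(unitInterval, ℂ) := toC lam - e with hf₀
  have hf₀mem : f₀ ∈ alg S := by
    refine ⟨0, ?_⟩
    have : f₀.comp S.Φ - algebraMap ℂ C(Y, ℂ) 0 = toC (lam.comp S.Φ) - e.comp S.Φ := by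
      ext ω; simp [hf₀, toC_apply]
    rw [this]
    exact he.1
  have hf₀p : f₀ p ≠ 0 := by
    intro h
    have h2 : e p = 1 := by
      have h3 : f₀ p = 1 - e p := by simp [hf₀, toC_apply, hlamp]
      rw [h3, sub_eq_zero] at h
      exact h.symm
    have h3 := e.norm_coe_le_norm p
    rw [h2, norm_one] at h3
    linarith
  refine ⟨(f₀ p)⁻¹ • f₀, (alg S).smul_mem hf₀mem _, ?_, fun x hx => ?_⟩
  · simp [hf₀p]
  · have h2 : f₀ x = 0 := by
      simp only [hf₀, ContinuousMap.sub_apply, toC_apply, hlamK x hx, heZ x hx]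
      simp
    simp [h2]

end Pool.Agent.H261.DR
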