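import Pool.Agent.H261.DR.Mean

set_option autoImplicit false

/-!
# Smoothed integer parts and the exceptional bump
-/

open Set Filter Topology MeasureTheory

namespace Pool.Agent.H261.DR

/-! ### The smoothed integer part -/

/-- The smoothed integer part with smoothing width `η`. -/
noncomputable def sfl (η r : ℝ) : ℝ := r + (max 0 ((Int.fract r - 1 + η) / η) - Int.fract r)

lemma continuous_sfl {η : ℝ} (h0 : 0 < η) (h1 : η ≤ 1) : Continuous (sfl η) := by
  unfold sfl
  refine continuous_id.add ?_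
  have h := ContinuousOn.comp_fract'' (f := fun x : ℝ => max 0 ((x - 1 + η) / η) - x)
    (Continuous.continuousOn (by fun_prop)) (by
      have e1 : max 0 ((0 - 1 + η) / η) = 0 := max_eq_left
        (div_nonpos_of_nonpos_of_nonneg (by linarith) h0.le)
      have e2 : ((1 : ℝ) - 1 + η) / η = 1 := by rw [sub_self, zero_add, div_self h0.ne']
      simp only [e1, e2]
      norm_num)
  exact h

lemma abs_sfl_sub_le {η : ℝ} (h0 : 0 < η) (r : ℝ) : |sfl η r - r| ≤ 1 := by
  unfold sfl
  have h1 := Int.fract_nonneg r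
  have h2 := Int.fract_lt_one r
  have h3 : max 0 ((Int.fract r - 1 + η) / η) ≤ 1 := by
    apply max_le zero_le_one
    rw [div_le_one h0]; linarith
  have h4 : 0 ≤ max 0 ((Int.fract r - 1 + η) / η) := le_max_left _ _
  rw [abs_le]; constructor <;> linarith

lemma sfl_eq_floor {η r : ℝ} (h0 : 0 < η) (h : Int.fract r ≤ 1 - η) : sfl η r = ⌊r⌋ := by
  unfold sfl
  rw [max_eq_left (div_nonpos_of_nonpos_of_nonneg (by linarith) h0.le)]
  have := Int.floor_add_fract r
  linarith

lemma sfl_eq_floor_of_norm {η r : ℝ} (h0 : 0 < η) (h : η < ‖(r : UnitAddCircle)‖) :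
    sfl η r = ⌊r⌋ := by
  apply sfl_eq_floor h0
  rw [UnitAddCircle.norm_eq] at h
  have h1 := round_le r (⌊r⌋ + 1)
  have h2 := Int.floor_add_fract r
  have h3 := Int.fract_lt_one r
  push_cast at h1
  have h4 : |r - ((⌊r⌋ : ℝ) + 1)| = 1 - Int.fract r := by
    have : r - ((⌊r⌋ : ℝ) + 1) = -(1 - Int.fract r) := by linarith
    rw [this, abs_neg, abs_of_pos (by linarith)]
  rw [h4] at h1
  linarith

/-! ### The bump -/

/-- The bump at `0` on the circle. -/
noncomputable def bump (η : ℝ) (x : UnitAddCircle) : ℝ := min 1 (max 0 (2 - ‖x‖ / η))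

lemma continuous_bump (η : ℝ) : Continuous (bump η) := by
  unfold bump; fun_prop

lemma bump_nonneg (η : ℝ) (x : UnitAddCircle) : 0 ≤ bump η x :=
  le_min zero_le_one (le_max_left _ _)

lemma bump_le_one (η : ℝ) (x : UnitAddCircle) : bump η x ≤ 1 := min_le_left _ _

lemma bump_eq_one {η : ℝ} (h0 : 0 < η) {x : UnitAddCircle} (h : ‖x‖ ≤ η) : bump η x = 1 := by
  unfold bump
  apply min_eq_left
  apply le_max_of_le_right
  have : ‖x‖ / η ≤ 1 := by rwa [div_le_one h0]
  linarith

lemma bump_eq_zero {η : ℝ} (h0 : 0 < η) {x : UnitAddCircle} (h : 2 * η < ‖x‖) : bump η x = 0 := by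
  unfold bump
  have : 2 < ‖x‖ / η := by rwa [lt_div_iff₀ h0]
  rw [max_eq_left (by linarith)]
  exact min_eq_right zero_le_one

lemma integrable_of_cont {f : UnitAddCircle → ℝ} (hf : Continuous f) : Integrable f :=
  hf.integrable_of_hasCompactSupport (HasCompactSupport.of_compactSpace _)

lemma integral_bump_le {η : ℝ} (h0 : 0 < η) : ∫ x : UnitAddCircle, bump η x ≤ 4 * η := by
  have h1 : ∀ x : UnitAddCircle, bump η x ≤
      (Metric.closedBall (0 : UnitAddCircle) (2 * η)).indicator (fun _ => (1 : ℝ)) x := by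
    intro x
    by_cases hx : x ∈ Metric.closedBall (0 : UnitAddCircle) (2 * η)
    · rw [indicator_of_mem hx]; exact bump_le_one _ _
    · rw [indicator_of_notMem hx, bump_eq_zero h0]
      rw [mem_closedBall_zero_iff, not_le] at hx
      exact hx
  have hm : MeasurableSet (Metric.closedBall (0 : UnitAddCircle) (2 * η)) :=
    Metric.isClosed_closedBall.measurableSet
  calc ∫ x : UnitAddCircle, bump η x
      ≤ ∫ x : UnitAddCircle,
        (Metric.closedBall (0 : UnitAddCircle) (2 * η)).indicator (fun _ => (1 : ℝ)) x :=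
        integral_mono (integrable_of_cont (continuous_bump η))
          ((integrable_const _).indicator hm) h1
    _ = (volume (Metric.closedBall (0 : UnitAddCircle) (2 * η))).toReal := by
        rw [integral_indicator hm, setIntegral_const]
        simp [measureReal_def]
    _ ≤ 4 * η := by
        rw [AddCircle.volume_closedBall, ENNReal.toReal_ofReal (le_min zero_le_one (by positivity))]
        refine (min_le_right _ _).trans (by linarith)

lemma integral_interval_bump (η t : ℝ) :
    ∫ s in t..t + 1, bump η (s : UnitAddCircle) = ∫ x : UnitAddCircle, bump η x :=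
  UnitAddCircle.intervalIntegral_preimage t (bump η)

lemma continuous_bump_comp (η : ℝ) {g : ℝ → ℝ} (hg : Continuous g) :
    Continuous fun a : ℝ => bump η ((g a : ℝ) : UnitAddCircle) :=
  (continuous_bump η).comp ((AddCircle.continuous_mk' 1).comp hg)

lemma integral_bump_shift (η t : ℝ) :
    ∫ θ : UnitAddCircle, bump η ((t + 2 * ‖θ‖ : ℝ) : UnitAddCircle) =
      ∫ x : UnitAddCircle, bump η x := by
  have h0 := UnitAddCircle.intervalIntegral_preimage (0 : ℝ)
    (fun θ : UnitAddCircle => bump η ((t + 2 * ‖θ‖ : ℝ) : UnitAddCircle))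
  rw [← h0, zero_add]
  have hc : Continuous fun a : ℝ => bump η ((t + 2 * ‖(a : UnitAddCircle)‖ : ℝ) : UnitAddCircle) := by
    refine continuous_bump_comp η ?_
    exact continuous_const.add (continuous_const.mul (AddCircle.continuous_mk' 1).norm)
  rw [← intervalIntegral.integral_add_adjacent_intervals (b := (1 / 2 : ℝ))
    (hc.intervalIntegrable _ _) (hc.intervalIntegrable _ _)]
  have h1 : ∫ a in (0 : ℝ)..1 / 2, bump η ((t + 2 * ‖(a : UnitAddCircle)‖ : ℝ) : UnitAddCircle) =
      ∫ a in (0 : ℝ)..1 / 2, bump η ((t + 2 * a : ℝ) : UnitAddCircle) := by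
    apply intervalIntegral.integral_congr
    intro a ha
    rw [uIcc_of_le (by norm_num)] at ha
    have : ‖(a : UnitAddCircle)‖ = a := by
      have h := (AddCircle.norm_coe_eq_abs_iff (1 : ℝ) one_ne_zero (x := a)).2 (by
        rw [abs_of_nonneg ha.1, abs_one]; exact ha.2)
      rw [h, abs_of_nonneg ha.1]
    simp only [this]
  have h2 : ∫ a in (1 / 2 : ℝ)..1, bump η ((t + 2 * ‖(a : UnitAddCircle)‖ : ℝ) : UnitAddCircle) =
      ∫ a in (1 / 2 : ℝ)..1, bump η ((t + 2 - 2 * a : ℝ) : UnitAddCircle) := by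
    apply intervalIntegral.integral_congr
    intro a ha
    rw [uIcc_of_le (by norm_num)] at ha
    have : ‖(a : UnitAddCircle)‖ = 1 - a := by
      have e1 : (a : UnitAddCircle) = ((a - 1 : ℝ) : UnitAddCircle) := by
        rw [AddCircle.coe_sub, AddCircle.coe_period, sub_zero]
      rw [e1]
      have h := (AddCircle.norm_coe_eq_abs_iff (1 : ℝ) one_ne_zero (x := a - 1)).2 (by
        rw [abs_of_nonpos (by linarith [ha.2]), abs_one]; linarith [ha.1])
      rw [h, abs_of_nonpos (by linarith [ha.2])]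
      ring
    simp only [this]
    congr 2
    ring
  rw [h1, h2]
  have h3 : ∫ a in (0 : ℝ)..1 / 2, bump η ((t + 2 * a : ℝ) : UnitAddCircle) =
      (1 / 2) * ∫ s in t..t + 1, bump η (s : UnitAddCircle) := by
    have := intervalIntegral.integral_comp_add_mul (a := (0 : ℝ)) (b := 1 / 2)
      (fun s : ℝ => bump η (s : UnitAddCircle)) (c := (2 : ℝ)) (by norm_num) t
    rw [this]
    simp
  have h4 : ∫ a in (1 / 2 : ℝ)..1, bump η ((t + 2 - 2 * a : ℝ) : UnitAddCircle) =
      (1 / 2) * ∫ s in t..t + 1, bump η (s : UnitAddCircle) := by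
    have := intervalIntegral.integral_comp_sub_mul (a := (1 / 2 : ℝ)) (b := 1)
      (fun s : ℝ => bump η (s : UnitAddCircle)) (c := (2 : ℝ)) (by norm_num) (t + 2)
    rw [this]
    have e1 : t + 2 - 2 * 1 = t := by ring
    have e2 : t + 2 - 2 * (1 / 2) = t + 1 := by ring
    rw [e1, e2]
    simp
  rw [h3, h4, integral_interval_bump]
  ring

lemma integral_bump_shift_le {η : ℝ} (h0 : 0 < η) (t : ℝ) :
    ∫ θ : UnitAddCircle, bump η ((t + 2 * ‖θ‖ : ℝ) : UnitAddCircle) ≤ 4 * η := by
  rw [integral_bump_shift]; exact integral_bump_le h0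

end Pool.Agent.H261.DR
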