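import Pool.Agent.H261.DR.Haar

set_option autoImplicit false

/-!
# Functionals that almost annihilate the ideals
-/

open Set Filter Topology

namespace Pool.Agent.H261.DR

/-! ### Exponentials -/

lemma exp_sub_one_mem {n : ℕ} {F : C(Y, ℂ)} (hF : F ∈ I n) : NormedSpace.exp F - 1 ∈ I n := by
  have h := NormedSpace.exp_series_hasSum_exp' (𝕂 := ℂ) F
  have h1 := (hasSum_nat_add_iff' (f := fun k : ℕ => ((k.factorial : ℂ))⁻¹ • F ^ k) 1).2 h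
  simp only [Finset.range_one, Finset.sum_singleton, Nat.factorial_zero, Nat.cast_one, inv_one,
    pow_zero, one_smul] at h1
  have hpow : ∀ k : ℕ, F ^ (k + 1) ∈ I n := by
    intro k
    induction k with
    | zero => simpa using hF
    | succ k ih => rw [pow_succ]; exact mul_mem_I ih hF
  refine (isClosed_I n).mem_of_tendsto h1.tendsto_sum_nat (Eventually.of_forall fun k => ?_)
  exact Submodule.sum_mem _ fun i _ => Submodule.smul_mem _ _ (hpow i)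

lemma exp_apply (F : C(Y, ℂ)) (ω : Y) : (NormedSpace.exp F) ω = Complex.exp (F ω) := by
  rw [Complex.exp_eq_exp_ℂ]
  exact NormedSpace.map_exp (ContinuousMap.evalAlgHom ℂ ℂ ω) (continuous_eval_const ω) F

lemma exp_neg_le {x : ℝ} (h0 : 0 ≤ x) (h1 : x ≤ 1) : Real.exp (-x) ≤ 1 - x / 2 := by
  rw [Real.exp_neg]
  have h2 : 1 + x ≤ Real.exp x := by linarith [Real.add_one_le_exp x]
  have h3 : (Real.exp x)⁻¹ ≤ (1 + x)⁻¹ := inv_anti₀ (by linarith) h2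
  refine h3.trans ?_
  rw [inv_le_iff_one_le_mul₀ (by linarith)]
  nlinarith

/-- `L` almost annihilates `I n` for large `n`. -/
def AA (L : StrongDual ℂ C(Y, ℂ)) : Prop :=
  ∀ ε > 0, ∃ N, ∀ n ≥ N, ∀ F ∈ I n, ‖L F‖ ≤ ε * ‖F‖

/-- The data: a map to the interval together with the exceptional functions. -/
structure Setup where
  /-- the map to the interval -/
  Φ : C(Y, unitInterval)
  /-- the exceptional functions -/
  u : ℕ → C(Y, ℝ)
  u_nonneg : ∀ n ω, 0 ≤ u n ω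
  u_le : ∀ n ω, u n ω ≤ 1
  re_ge : ∀ ε : ℝ, 0 < ε → ∃ N, ∀ n ≥ N, ∃ F ∈ I n, ∀ ω, u n ω - ε ≤ (F ω).re
  sep : ∀ (φ : C(Y, ℂ)) (δ : ℝ), 0 < δ → ∀ N, ∃ n ≥ N, ∃ κ : ℝ, 0 < κ ∧
    ∀ ω ω', u n ω < 1 → u n ω' < 1 → dist (Φ ω) (Φ ω') ≤ κ → ‖φ ω - φ ω'‖ ≤ δ

variable (S : Setup)

/-- `L` is small on functions dominated by `u n`. -/
def Tame (L : StrongDual ℂ C(Y, ℂ)) : Prop :=
  ∀ ε > 0, ∃ N, ∀ n ≥ N, ∀ φ : C(Y, ℂ), (∀ ω, ‖φ ω‖ ≤ S.u n ω) → ‖L φ‖ ≤ ε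

/-- Rotation making a complex number nonnegative. -/
lemma exists_rot (z : ℂ) : ∃ c : ℂ, ‖c‖ = 1 ∧ c * z = (‖z‖ : ℂ) := by
  by_cases h : z = 0
  · exact ⟨1, by simp, by simp [h]⟩
  · have hz : (‖z‖ : ℂ) ≠ 0 := by exact_mod_cast norm_ne_zero_iff.2 h
    refine ⟨(‖z‖ : ℂ) / z, ?_, ?_⟩
    · rw [norm_div, Complex.norm_real, norm_norm, div_self (norm_ne_zero_iff.2 h)]
    · rw [div_mul_cancel₀ _ h]

/-- An almost norming function. -/
lemma exists_almost_norming (L : StrongDual ℂ C(Y, ℂ)) {γ : ℝ} (hγ : 0 < γ) :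
    ∃ g : C(Y, ℂ), ‖g‖ ≤ 1 ∧ ‖L‖ - γ ≤ (L g).re := by
  obtain ⟨x, hx, h⟩ := L.exists_lt_apply_of_lt_opNorm (r := ‖L‖ - γ) (by linarith)
  obtain ⟨c, hc, hcz⟩ := exists_rot (L x)
  refine ⟨c • x, ?_, ?_⟩
  · rw [norm_smul, hc, one_mul]; exact hx.le
  · rw [map_smul, smul_eq_mul, hcz, Complex.ofReal_re]; exact h.le

lemma AA.tame {L : StrongDual ℂ C(Y, ℂ)} (hL : AA L) : Tame S L := by
  intro ε hε
  set M := ‖L‖ with hM
  have hM0 : 0 ≤ M := by rw [hM]; exact norm_nonneg L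
  obtain ⟨γ, hγ0, hγ1, hγε⟩ : ∃ γ : ℝ, 0 < γ ∧ γ ≤ 1 ∧ 2 * (3 * M + 5) * γ ≤ ε := by
    refine ⟨min 1 (ε / (2 * (3 * M + 5))), by positivity, min_le_left _ _, ?_⟩
    calc 2 * (3 * M + 5) * min 1 (ε / (2 * (3 * M + 5)))
        ≤ 2 * (3 * M + 5) * (ε / (2 * (3 * M + 5))) := by
          gcongr; exact min_le_right _ _
      _ = ε := by field_simp
  obtain ⟨g₀, hg₀, hLg₀⟩ := exists_almost_norming L hγ0
  obtain ⟨N₁, hN₁⟩ := exists_comp_trunc_near g₀ hγ0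
  obtain ⟨N₂, hN₂⟩ := S.re_ge γ hγ0
  obtain ⟨N₃, hN₃⟩ := hL γ hγ0
  refine ⟨max N₁ (max N₂ N₃), fun n hn φ hφ => ?_⟩
  have hn1 : N₁ ≤ n := (le_max_left _ _).trans hn
  have hn2 : N₂ ≤ n := (le_max_left _ _).trans ((le_max_right _ _).trans hn)
  have hn3 : N₃ ≤ n := (le_max_right _ _).trans ((le_max_right _ _).trans hn)
  obtain ⟨F, hF, hFre⟩ := hN₂ n hn2
  set g := g₀.comp (trunc n) with hg
  have hgn : ‖g‖ ≤ 1 := by
    rw [ContinuousMap.norm_le _ zero_le_one]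
    intro ω
    exact (g₀.norm_coe_le_norm _).trans hg₀
  have hgg : ‖g - g₀‖ ≤ γ := by
    rw [ContinuousMap.norm_le _ hγ0.le]
    intro ω
    exact (hN₁ n hn1 ω).le
  set h := NormedSpace.exp (-F) with hh
  have hhω : ∀ ω, ‖h ω‖ ≤ Real.exp γ * Real.exp (-(S.u n ω)) := by
    intro ω
    rw [hh, exp_apply, Complex.norm_exp, ← Real.exp_add]
    apply Real.exp_le_exp.2
    simp only [ContinuousMap.neg_apply, Complex.neg_re]
    linarith [hFre ω]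
  have hE : Real.exp γ ≤ 1 + 2 * γ := by
    have := Real.abs_exp_sub_one_le (x := γ) (by rw [abs_of_pos hγ0]; exact hγ1)
    rw [abs_of_pos hγ0] at this
    linarith [(abs_le.1 this).2]
  have hE1 : 1 ≤ Real.exp γ := Real.one_le_exp hγ0.le
  have hhn : ‖h‖ ≤ Real.exp γ := by
    rw [ContinuousMap.norm_le _ (Real.exp_pos _).le]
    intro ω
    refine (hhω ω).trans ?_
    have : Real.exp (-(S.u n ω)) ≤ 1 := Real.exp_le_one_iff.2 (by linarith [S.u_nonneg n ω])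
    nlinarith [Real.exp_pos γ]
  have hmem : g * (h - 1) ∈ I n := comp_trunc_mul_mem_I g₀ (exp_sub_one_mem (neg_mem hF))
  have hnorm1 : ‖g * (h - 1)‖ ≤ 1 + Real.exp γ := by
    calc ‖g * (h - 1)‖ ≤ ‖g‖ * ‖h - 1‖ := norm_mul_le _ _
      _ ≤ 1 * (‖h‖ + ‖(1 : C(Y, ℂ))‖) := by gcongr; exact norm_sub_le _ _
      _ ≤ 1 + Real.exp γ := by rw [norm_one]; linarith
  have h1 : ‖L (g * (h - 1))‖ ≤ γ * (1 + Real.exp γ) :=
    (hN₃ n hn3 _ hmem).trans (by gcongr)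
  obtain ⟨c, hc, hcz⟩ := exists_rot (L φ)
  -- the key estimate
  have h2 : ‖g * h + ((1 / 2 : ℂ) * c) • φ‖ ≤ Real.exp γ := by
    rw [ContinuousMap.norm_le _ (Real.exp_pos _).le]
    intro ω
    simp only [ContinuousMap.add_apply, ContinuousMap.mul_apply, ContinuousMap.smul_apply,
      smul_eq_mul]
    have e1 : ‖g ω * h ω‖ ≤ Real.exp γ * Real.exp (-(S.u n ω)) := by
      rw [norm_mul]
      calc ‖g ω‖ * ‖h ω‖ ≤ 1 * (Real.exp γ * Real.exp (-(S.u n ω))) :=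
            mul_le_mul ((g.norm_coe_le_norm ω).trans hgn) (hhω ω) (norm_nonneg _) zero_le_one
        _ = _ := one_mul _
    have e2 : ‖(1 / 2 : ℂ) * c * φ ω‖ ≤ S.u n ω / 2 := by
      rw [norm_mul, norm_mul, hc]
      have := hφ ω
      norm_num
      linarith
    have e3 := exp_neg_le (S.u_nonneg n ω) (S.u_le n ω)
    have e4 := S.u_nonneg n ω
    calc _ ≤ _ := norm_add_le _ _
      _ ≤ Real.exp γ * Real.exp (-(S.u n ω)) + S.u n ω / 2 := add_le_add e1 e2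
      _ ≤ Real.exp γ * (1 - S.u n ω / 2) + Real.exp γ * (S.u n ω / 2) := by
          gcongr
          nlinarith
      _ = Real.exp γ := by ring
  have h3 : (L (g * h + ((1 / 2 : ℂ) * c) • φ)).re ≤ M * Real.exp γ :=
    (Complex.re_le_norm _).trans ((L.le_opNorm _).trans (by rw [← hM]; gcongr))
  have h4 : L (g * h + ((1 / 2 : ℂ) * c) • φ) = L g₀ + L (g - g₀) + L (g * (h - 1)) +
      (1 / 2 : ℂ) * (‖L φ‖ : ℂ) := by
    rw [map_add, map_smul, smul_eq_mul, mul_assoc, hcz, ← map_add, ← map_add]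
    congr 2
    ring
  have h5 : ‖L (g - g₀)‖ ≤ M * γ := (L.le_opNorm _).trans (by rw [← hM]; gcongr)
  have h6 := (abs_le.1 ((Complex.abs_re_le_norm _).trans h5)).1
  have h7 := (abs_le.1 ((Complex.abs_re_le_norm _).trans h1)).1
  rw [h4] at h3
  have h8 : ((1 / 2 : ℂ) * (‖L φ‖ : ℂ)).re = ‖L φ‖ / 2 := by
    have : (1 / 2 : ℂ) * (‖L φ‖ : ℂ) = ((‖L φ‖ / 2 : ℝ) : ℂ) := by push_cast; ring
    rw [this, Complex.ofReal_re]
  simp only [Complex.add_re, h8] at h3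
  have h9 : M * Real.exp γ ≤ M * (1 + 2 * γ) := by gcongr
  have h10 : γ * (1 + Real.exp γ) ≤ 4 * γ := by nlinarith
  linarith

/-! ### Approximate factorisation -/

/-- Approximation of a function by functions of `Φ` off the exceptional set. -/
lemma exists_factor (φ : C(Y, ℂ)) {δ : ℝ} (hδ : 0 < δ) (N : ℕ) :
    ∃ n ≥ N, ∃ f : C(unitInterval, ℂ), (∀ x, ‖f x‖ ≤ ‖φ‖) ∧
      ∀ ω, S.u n ω < 1 → ‖f (S.Φ ω) - φ ω‖ ≤ δ := by
  obtain ⟨n, hn, κ, hκ, h⟩ := S.sep φ δ hδ N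
  let t : unitInterval → Set ℂ := fun x =>
    {z | ‖z‖ ≤ ‖φ‖ ∧ ∀ ω, S.u n ω < 1 → S.Φ ω = x → ‖z - φ ω‖ ≤ δ}
  have hball : ∀ (c : ℂ) (r : ℝ), Convex ℝ {z : ℂ | ‖z - c‖ ≤ r} := by
    intro c r
    have : {z : ℂ | ‖z - c‖ ≤ r} = Metric.closedBall c r := by
      ext z; simp [dist_eq_norm]
    rw [this]; exact convex_closedBall c r
  have ht : ∀ x, Convex ℝ (t x) := by
    intro x
    have : t x = {z : ℂ | ‖z - 0‖ ≤ ‖φ‖} ∩
        ⋂ ω : Y, ⋂ _ : S.u n ω < 1, ⋂ _ : S.Φ ω = x, {z : ℂ | ‖z - φ ω‖ ≤ δ} := by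
      ext z; simp [t]
    rw [this]
    exact (hball _ _).inter (convex_iInter fun _ => convex_iInter fun _ => convex_iInter fun _ =>
      hball _ _)
  obtain ⟨f, hf⟩ := exists_continuous_forall_mem_convex_of_local_const ht (by
    intro x
    by_cases hx : ∃ ω₀, S.u n ω₀ < 1 ∧ dist (S.Φ ω₀) x ≤ κ / 2
    · obtain ⟨ω₀, h0, h0x⟩ := hx
      refine ⟨φ ω₀, ?_⟩
      filter_upwards [Metric.ball_mem_nhds x (half_pos hκ)] with y hy
      refine ⟨φ.norm_coe_le_norm _, fun ω hω hωy => h ω₀ ω h0 hω ?_⟩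
      rw [hωy]
      have h1 := dist_triangle_right (S.Φ ω₀) y x
      rw [Metric.mem_ball] at hy
      linarith
    · refine ⟨0, ?_⟩
      push Not at hx
      filter_upwards [Metric.ball_mem_nhds x (half_pos hκ)] with y hy
      refine ⟨by simp, fun ω hω hωy => ?_⟩
      exfalso
      have h1 := hx ω hω
      rw [hωy] at h1
      rw [Metric.mem_ball] at hy
      linarith)
  exact ⟨n, hn, f, fun x => (hf x).1, fun ω hω => (hf (S.Φ ω)).2 ω hω rfl⟩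

lemma tame_bound {L : StrongDual ℂ C(Y, ℂ)} {n : ℕ} {ε' B δ : ℝ} (hB : 0 < B) (hδ : 0 < δ)
    (hT : ∀ φ : C(Y, ℂ), (∀ ω, ‖φ ω‖ ≤ S.u n ω) → ‖L φ‖ ≤ ε') (ψ : C(Y, ℂ))
    (hψ : ∀ ω, ‖ψ ω‖ ≤ B * S.u n ω + δ) : ‖L ψ‖ ≤ B * ε' + ‖L‖ * δ := by
  have hpos : ∀ ω, 0 < B * S.u n ω + δ := fun ω => by
    have := S.u_nonneg n ω
    positivity
  have hne : ∀ ω, ((B * S.u n ω + δ : ℝ) : ℂ) ≠ 0 := fun ω => by
    exact_mod_cast (hpos ω).ne'
  let ψ₁ : C(Y, ℂ) := ⟨fun ω => ψ ω * ((S.u n ω : ℝ) : ℂ) / ((B * S.u n ω + δ : ℝ) : ℂ), by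
    refine Continuous.div (by fun_prop) (by fun_prop) hne⟩
  let ψ₂ : C(Y, ℂ) := ⟨fun ω => ψ ω * (δ : ℂ) / ((B * S.u n ω + δ : ℝ) : ℂ), by
    refine Continuous.div (by fun_prop) (by fun_prop) hne⟩
  have hsum : ψ = (B : ℂ) • ψ₁ + ψ₂ := by
    ext ω
    have h := hne ω
    simp only [ContinuousMap.add_apply, ContinuousMap.smul_apply, smul_eq_mul, ψ₁, ψ₂,
      ContinuousMap.coe_mk]
    field_simp
    push_cast
    ring
  have h1 : ‖L ψ₁‖ ≤ ε' := by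
    refine hT ψ₁ fun ω => ?_
    simp only [ψ₁, ContinuousMap.coe_mk]
    rw [norm_div, norm_mul, Complex.norm_real, Complex.norm_real, Real.norm_of_nonneg (hpos ω).le,
      Real.norm_of_nonneg (S.u_nonneg n ω), div_le_iff₀ (hpos ω)]
    have := mul_le_mul_of_nonneg_right (hψ ω) (S.u_nonneg n ω)
    linarith
  have h2 : ‖ψ₂‖ ≤ δ := by
    rw [ContinuousMap.norm_le _ hδ.le]
    intro ω
    simp only [ψ₂, ContinuousMap.coe_mk]
    rw [norm_div, norm_mul, Complex.norm_real, Complex.norm_real, Real.norm_of_nonneg (hpos ω).le,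
      Real.norm_of_nonneg hδ.le, div_le_iff₀ (hpos ω)]
    have := mul_le_mul_of_nonneg_right (hψ ω) hδ.le
    linarith
  rw [hsum, map_add, map_smul]
  refine (norm_add_le _ _).trans ?_
  rw [norm_smul, Complex.norm_real, Real.norm_of_nonneg hB.le]
  gcongr
  exact (L.le_opNorm _).trans (by gcongr)

/-- Every function is indistinguishable for a tame functional from a function of `Φ`. -/
lemma Tame.exists_factor {L : StrongDual ℂ C(Y, ℂ)} (hL : Tame S L) (φ : C(Y, ℂ)) {ε : ℝ}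
    (hε : 0 < ε) : ∃ f : C(unitInterval, ℂ), (∀ x, ‖f x‖ ≤ ‖φ‖) ∧ ‖L (f.comp S.Φ) - L φ‖ ≤ ε := by
  set B : ℝ := 2 * ‖φ‖ + 1 with hB
  have hB0 : 0 < B := by positivity
  set δ : ℝ := ε / (2 * (‖L‖ + 1)) with hδ
  have hL0 : 0 ≤ ‖L‖ := norm_nonneg L
  have hδ0 : 0 < δ := by positivity
  obtain ⟨N, hN⟩ := hL (ε / (2 * B)) (by positivity)
  obtain ⟨n, hn, f, hf, hfφ⟩ := DR.exists_factor S φ hδ0 N
  refine ⟨f, hf, ?_⟩
  rw [← map_sub]
  have h := tame_bound S hB0 hδ0 (hN n hn) (f.comp S.Φ - φ) (by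
    intro ω
    rcases lt_or_ge (S.u n ω) 1 with h | h
    · have h1 := hfφ ω h
      have h2 := S.u_nonneg n ω
      have h3 : 0 ≤ B * S.u n ω := by positivity
      simp only [ContinuousMap.sub_apply, ContinuousMap.comp_apply]
      linarith
    · have h1 : ‖(f.comp S.Φ - φ) ω‖ ≤ ‖f (S.Φ ω)‖ + ‖φ ω‖ := norm_sub_le _ _
      have h2 := hf (S.Φ ω)
      have h3 := φ.norm_coe_le_norm ω
      have h4 : B * 1 ≤ B * S.u n ω := by gcongr
      linarith)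
  refine h.trans ?_
  have h1 : B * (ε / (2 * B)) = ε / 2 := by field_simp
  have h2 : ‖L‖ * δ ≤ ε / 2 := by
    rw [hδ]
    have : ‖L‖ * (ε / (2 * (‖L‖ + 1))) = (‖L‖ / (‖L‖ + 1)) * (ε / 2) := by field_simp
    rw [this]
    have h3 : ‖L‖ / (‖L‖ + 1) ≤ 1 := by rw [div_le_one (by positivity)]; linarith
    nlinarith
  linarith

end Pool.Agent.H261.DR
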