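import Pool.Agent.H261.DR.Mean

set_option autoImplicit false

/-!
# The conjugate of the first coordinate is not in `ℂ + I 0`
-/

open Set Filter Topology MeasureTheory

namespace Pool.Agent.H261.DR

/-- Haar measure. -/
noncomputable def haarY : Measure Y := Measure.addHaar

instance : haarY.IsAddLeftInvariant := by unfold haarY; infer_instance
instance : IsFiniteMeasureOnCompacts haarY := by unfold haarY; infer_instance
instance : haarY.IsOpenPosMeasure := by unfold haarY; infer_instance
instance : haarY.IsAddRightInvariant := by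
  unfold haarY; infer_instance
instance : IsFiniteMeasure haarY := by
  constructor
  exact isCompact_univ.measure_lt_top

lemma integrable_haarY (F : C(Y, ℂ)) : Integrable F haarY :=
  F.continuous.integrable_of_hasCompactSupport (HasCompactSupport.of_compactSpace _)

lemma mon_apply_add (a : ℕ →₀ ℤ) (ω y : Y) : mon a (ω + y) = mon a ω * mon a y := by
  simp only [mon_apply, Finsupp.prod]
  rw [← Finset.prod_mul_distrib]
  refine Finset.prod_congr rfl fun j _ => ?_
  rw [fourier_apply, fourier_apply, fourier_apply, Pi.add_apply, smul_add, AddCircle.toCircle_add,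
    Circle.coe_mul]

lemma exists_mon_ne_one {a : ℕ →₀ ℤ} (ha : a ≠ 0) : ∃ y, mon a y = -1 := by
  obtain ⟨j, hj⟩ := Finsupp.ne_iff.1 ha
  simp only [Finsupp.coe_zero, Pi.zero_apply] at hj
  refine ⟨Function.update 0 j ((1 / 2 / (a j) : ℝ) : UnitAddCircle), ?_⟩
  rw [mon_update]
  have h1 : mon (a.erase j) 0 = 1 := by
    rw [mon_apply, Finsupp.prod]
    exact Finset.prod_eq_one fun i _ => by simp
  rw [h1, one_mul]
  have := fourier_add_half_inv_index hj (one_pos : (0 : ℝ) < 1) (0 : AddCircle (1 : ℝ))
  rw [zero_add, fourier_eval_zero] at this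
  exact this

lemma integral_mon {a : ℕ →₀ ℤ} (ha : a ≠ 0) : ∫ ω, mon a ω ∂haarY = 0 := by
  obtain ⟨y, hy⟩ := exists_mon_ne_one ha
  have h := integral_add_right_eq_self (μ := haarY) (fun ω : Y => mon a ω) y
  simp only [mon_apply_add, hy, mul_neg, mul_one, integral_neg] at h
  have h3 : (2 : ℂ) * ∫ ω, mon a ω ∂haarY = 0 := by linear_combination -h
  simpa using h3

/-- The kernel of the functional `F ↦ ∫ F z₀`. -/
noncomputable def kerN : Submodule ℂ C(Y, ℂ) where
  carrier := {F | ∫ ω, F ω * mon (Finsupp.single 0 1) ω ∂haarY = 0}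
  add_mem' := by
    intro F G hF hG
    simp only [mem_ofPred_eq, ContinuousMap.add_apply, add_mul] at *
    have h := integral_add (integrable_haarY (F * mon (Finsupp.single 0 1)))
      (integrable_haarY (G * mon (Finsupp.single 0 1)))
    simp only [ContinuousMap.mul_apply, hF, hG, add_zero] at h
    exact h
  zero_mem' := by simp
  smul_mem' := by
    intro c F hF
    simp only [mem_ofPred_eq, ContinuousMap.smul_apply, smul_eq_mul, mul_assoc] at *
    rw [integral_const_mul, hF, mul_zero]

lemma isClosed_kerN : IsClosed (kerN : Set C(Y, ℂ)) := by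
  refine isSeqClosed_iff_isClosed.1 fun F G hF hG => ?_
  change ∫ ω, G ω * mon (Finsupp.single 0 1) ω ∂haarY = 0
  have h1 : Tendsto (fun k => ∫ ω, F k ω * mon (Finsupp.single 0 1) ω ∂haarY) atTop
      (𝓝 (∫ ω, G ω * mon (Finsupp.single 0 1) ω ∂haarY)) := by
    have hb : Tendsto (fun k => ‖F k‖) atTop (𝓝 ‖G‖) := hG.norm
    obtain ⟨C, hC⟩ := hb.bddAbove_range
    refine tendsto_integral_of_dominated_convergence (fun _ => C) (fun k => ?_)
      (integrable_const _) (fun k => ?_) ?_
    · exact (integrable_haarY (F k * mon (Finsupp.single 0 1))).aestronglyMeasurable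
    · refine Eventually.of_forall fun ω => ?_
      rw [norm_mul, norm_mon_apply, mul_one]
      exact ((F k).norm_coe_le_norm ω).trans (hC ⟨k, rfl⟩)
    · refine Eventually.of_forall fun ω => ?_
      exact (((continuous_eval_const ω).tendsto G).comp hG).mul_const _
  have h2 : ∀ k, ∫ ω, F k ω * mon (Finsupp.single 0 1) ω ∂haarY = 0 := hF
  simp only [h2] at h1
  exact (tendsto_nhds_unique h1 tendsto_const_nhds)

lemma I_zero_le_kerN : I 0 ≤ kerN := by
  refine I_le_of isClosed_kerN fun a ha => ?_
  change ∫ ω, mon a ω * mon (Finsupp.single 0 1) ω ∂haarY = 0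
  have : ∀ ω, mon a ω * mon (Finsupp.single 0 1) ω = mon (a + Finsupp.single 0 1) ω := fun ω => by
    rw [mon_add]; rfl
  simp only [this]
  refine integral_mon fun h => ?_
  obtain ⟨j, -, h2, h3⟩ := ha
  have h4 := congrArg (fun b : ℕ →₀ ℤ => b j) h
  simp only [Finsupp.add_apply, Finsupp.coe_zero, Pi.zero_apply, Finsupp.single_apply] at h4
  split_ifs at h4 <;> omega

/-- The conjugate of the first coordinate is not in `ℂ + I 0`. -/
lemma conj_coord_notMem (c : ℂ) (F : C(Y, ℂ)) (hF : F ∈ I 0) :
    mon (Finsupp.single 0 (-1)) ≠ F + algebraMap ℂ C(Y, ℂ) c := by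
  intro h
  have h1 : ∫ ω, F ω * mon (Finsupp.single 0 1) ω ∂haarY = 0 := I_zero_le_kerN hF
  have h2 : ∫ ω, mon (Finsupp.single 0 1) ω ∂haarY = 0 := integral_mon (by simp)
  have h3 : ∀ ω, F ω * mon (Finsupp.single 0 1) ω + c * mon (Finsupp.single 0 1) ω = 1 := by
    intro ω
    have h4 := congrArg (fun f : C(Y, ℂ) => f ω) h
    simp only [ContinuousMap.add_apply, algebraMap_apply] at h4
    have h5 : mon (Finsupp.single 0 (-1)) ω * mon (Finsupp.single 0 1) ω = 1 := by
      rw [← ContinuousMap.mul_apply, ← mon_add, ← Finsupp.single_add]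
      simp [mon_zero]
    rw [← add_mul, ← h5, h4]
    simp
  have h4 := integral_add (integrable_haarY (F * mon (Finsupp.single 0 1)))
    ((integrable_haarY (mon (Finsupp.single 0 1))).const_mul c)
  simp only [ContinuousMap.mul_apply, h3, integral_const_mul, h1, h2, mul_zero, add_zero,
    integral_const] at h4
  have h5 : haarY.real univ ≠ 0 := by
    have : 0 < haarY univ := isOpen_univ.measure_pos haarY univ_nonempty
    exact (ENNReal.toReal_pos this.ne' (measure_ne_top _ _)).ne'
  apply h5
  simpa using h4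

end Pool.Agent.H261.DR
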