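import Pool.Agent.H261.DR.Mono

set_option autoImplicit false

/-!
# Real parts and means
-/

open Set Filter Topology MeasureTheory

namespace Pool.Agent.H261.DR

/-- Truncation converges uniformly to the identity. -/
lemma tendstoUniformly_trunc : TendstoUniformly (fun n (ω : Y) => trunc n ω) id atTop := by
  rw [tendstoUniformly_iff_tendsto, Pi.uniformity, tendsto_iInf]
  intro i
  rw [tendsto_comap_iff]
  have : ((fun a : Y × Y => (a.1 i, a.2 i)) ∘ fun q : ℕ × Y => (id q.2, trunc q.1 q.2)) =ᶠ[atTop ×ˢ ⊤]
      fun q => (q.2 i, q.2 i) := by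
    have h := (eventually_gt_atTop i).prod_inl (⊤ : Filter Y)
    filter_upwards [h] with q hq
    simp [trunc_apply, hq]
  rw [tendsto_congr' this]
  refine tendsto_def.2 fun s hs => ?_
  rw [Filter.mem_prod_top]
  exact Filter.Eventually.of_forall fun _ x => refl_mem_uniformity hs

lemma tendsto_comp_trunc {E : Type*} [NormedAddCommGroup E] (g : C(Y, E)) :
    Tendsto (fun n => g.comp (trunc n)) atTop (𝓝 g) := by
  rw [ContinuousMap.tendsto_iff_tendstoUniformly]
  have hg : UniformContinuous g := CompactSpace.uniformContinuous_of_continuous g.continuous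
  have := hg.comp_tendstoUniformly tendstoUniformly_trunc
  exact this

lemma exists_comp_trunc_near {E : Type*} [NormedAddCommGroup E] (g : C(Y, E)) {ε : ℝ} (hε : 0 < ε) :
    ∃ N, ∀ n ≥ N, ∀ ω, ‖g (trunc n ω) - g ω‖ < ε := by
  have := (Metric.tendsto_atTop.1 (tendsto_comp_trunc g)) ε hε
  obtain ⟨N, hN⟩ := this
  refine ⟨N, fun n hn ω => ?_⟩
  have h := hN n hn
  rw [← dist_eq_norm]
  exact (ContinuousMap.dist_apply_le_dist ω).trans_lt h

/-! ### Decomposition of real parts -/

/-- `q` has the same real part as the sum of a real constant and an element of `spanPos n`, up to a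
function of the first `n` coordinates. -/
def Dec (n : ℕ) (q : C(Y, ℂ)) : Prop :=
  ∃ F ∈ spanPos n, ∃ g : C(Y, ℂ), g.comp (trunc n) = g ∧ ∀ ω, (q ω).re = (F ω).re + (g ω).re

lemma dec_add {n : ℕ} {q r : C(Y, ℂ)} (hq : Dec n q) (hr : Dec n r) : Dec n (q + r) := by
  obtain ⟨F, hF, g, hg, h⟩ := hq
  obtain ⟨F', hF', g', hg', h'⟩ := hr
  refine ⟨F + F', add_mem hF hF', g + g', ?_, fun ω => ?_⟩
  · ext ω
    have h1 := congrArg (fun f : C(Y, ℂ) => f ω) hg
    have h2 := congrArg (fun f : C(Y, ℂ) => f ω) hg'
    simp only [ContinuousMap.comp_apply] at h1 h2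
    simp [h1, h2]
  · simp only [ContinuousMap.add_apply, Complex.add_re, h ω, h' ω]; ring

lemma dec_smul_mon (n : ℕ) (z : ℂ) (a : ℕ →₀ ℤ) : Dec n (z • mon a) := by
  rcases trichotomy n a with h | h | h
  · refine ⟨0, zero_mem _, z • mon a, ?_, fun ω => by simp⟩
    have h2 : (mon a).comp (trunc n) = mon a := by
      rw [mon_comp_trunc]
      congr 1
      ext i
      rw [Finsupp.filter_apply]
      split_ifs with hi
      · rfl
      · exact (h i (not_lt.1 hi)).symm
    ext ω
    have := congrArg (fun f : C(Y, ℂ) => f ω) h2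
    simp only [ContinuousMap.comp_apply] at this
    simp [this]
  · exact ⟨z • mon a, Submodule.smul_mem _ _ (Submodule.subset_span ⟨a, h, rfl⟩), 0, by ext; simp,
      fun ω => by simp⟩
  · refine ⟨star z • mon (-a), Submodule.smul_mem _ _ (Submodule.subset_span ⟨-a, h, rfl⟩), 0,
      by ext; simp, fun ω => ?_⟩
    rw [← star_mon]
    simp

lemma dec_of_mem_spanMon (n : ℕ) {q : C(Y, ℂ)} (hq : q ∈ spanMon) : Dec n q := by
  have : ∀ z : ℂ, Dec n (z • q) := by
    unfold spanMon at hq
    induction hq using Submodule.span_induction with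
    | mem x hx => obtain ⟨a, rfl⟩ := hx; exact fun z => dec_smul_mon n z a
    | zero => exact fun z => ⟨0, zero_mem _, 0, by ext; simp, fun ω => by simp⟩
    | add x y _ _ hx hy =>
      intro z
      have h : z • (x + y) = z • x + z • y := smul_add z x y
      rw [h]; exact dec_add (hx z) (hy z)
    | smul c x _ hx =>
      intro z
      have h : z • c • x = (z * c) • x := smul_smul z c x
      rw [h]; exact hx _
  simpa using this 1

/-- Real parts of `ℂ + I 0` are dense. -/
lemma exists_I_zero_re (u : C(Y, ℝ)) {γ : ℝ} (hγ : 0 < γ) :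
    ∃ F ∈ I 0, ∃ c : ℝ, ∀ ω, |u ω - ((F ω).re + c)| ≤ γ := by
  let U : C(Y, ℂ) := ⟨fun ω => (u ω : ℂ), by fun_prop⟩
  obtain ⟨q, hq, hUq⟩ := exists_spanMon_near U hγ
  obtain ⟨F, hF, g, hg, h⟩ := dec_of_mem_spanMon 0 hq
  refine ⟨F, spanPos_le_I 0 hF, (g 0).re, fun ω => ?_⟩
  have hg0 : g ω = g 0 := by
    have := congrArg (fun f : C(Y, ℂ) => f ω) hg
    simp only [ContinuousMap.comp_apply] at this
    rw [← this]
    congr 1
  rw [← hg0, ← h ω]
  have h1 : ‖(U - q) ω‖ ≤ γ := ((U - q).norm_coe_le_norm ω).trans hUq.le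
  have h2 : u ω - (q ω).re = ((U - q) ω).re := by simp [U]
  rw [h2]
  exact (Complex.abs_re_le_norm _).trans h1

/-! ### Means over one coordinate -/

lemma integral_fourier {k : ℤ} (hk : k ≠ 0) : ∫ θ : UnitAddCircle, fourier k θ = 0 := by
  have h := integral_add_right_eq_self (μ := (volume : Measure UnitAddCircle))
    (fun θ : UnitAddCircle => (fourier k θ : ℂ)) ((1 / 2 / k : ℝ) : UnitAddCircle)
  have h2 : ∀ θ : UnitAddCircle, (fourier k (θ + ((1 / 2 / k : ℝ) : UnitAddCircle)) : ℂ) =
      -fourier k θ := fun θ => fourier_add_half_inv_index hk one_pos θ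
  simp only [h2, integral_neg] at h
  have h3 : (2 : ℂ) * ∫ θ : UnitAddCircle, fourier k θ = 0 := by linear_combination -h
  simpa using h3

lemma volume_real_univ : (volume : Measure UnitAddCircle).real univ = 1 := by
  simp [measureReal_def, UnitAddCircle.measure_univ]

lemma continuous_upd (n : ℕ) (ω : Y) : Continuous fun θ : UnitAddCircle => Function.update ω n θ :=
  continuous_const.update n continuous_id

/-- Span of the monomials in the first `n + 1` coordinates with positive exponent at `n`. -/
noncomputable def spanTop (n : ℕ) : Submodule ℂ C(Y, ℂ) :=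
  Submodule.span ℂ (mon '' {a | 0 < a n ∧ ∀ i, n < i → a i = 0})

lemma spanTop_le (n : ℕ) : spanTop n ≤ spanPos n :=
  Submodule.span_mono (image_mono fun _ ha => ⟨n, le_rfl, ha⟩)

lemma mon_update (n : ℕ) (a : ℕ →₀ ℤ) (ω : Y) (θ : UnitAddCircle) :
    mon a (Function.update ω n θ) = mon (a.erase n) ω * fourier (a n) θ := by
  have h : a = a.erase n + Finsupp.single n (a n) := (Finsupp.erase_add_single n a).symm
  conv_lhs => rw [h]
  rw [mon_add, ContinuousMap.mul_apply, mon_single]
  congr 1
  · rw [mon_apply, mon_apply, Finsupp.prod, Finsupp.prod]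
    refine Finset.prod_congr rfl fun j hj => ?_
    have : j ≠ n := by rintro rfl; simp at hj
    rw [Function.update_of_ne this]
  · simp [coord_apply]

lemma integrable_upd (n : ℕ) (ω : Y) (F : C(Y, ℂ)) :
    Integrable (fun θ : UnitAddCircle => F (Function.update ω n θ)) :=
  (F.continuous.comp (continuous_upd n ω)).integrable_of_hasCompactSupport
    (HasCompactSupport.of_compactSpace _)

lemma integral_spanTop (n : ℕ) {F : C(Y, ℂ)} (hF : F ∈ spanTop n) (ω : Y) :
    ∫ θ : UnitAddCircle, F (Function.update ω n θ) = 0 := by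
  unfold spanTop at hF
  induction hF using Submodule.span_induction with
  | mem x hx =>
    obtain ⟨a, ⟨ha, -⟩, rfl⟩ := hx
    simp only [mon_update, integral_const_mul, integral_fourier ha.ne', mul_zero]
  | zero => simp
  | add x y _ _ hx hy =>
    have := integral_add (integrable_upd n ω x) (integrable_upd n ω y)
    rw [hx, hy, add_zero] at this
    exact this
  | smul c x _ hx =>
    have := integral_const_mul (μ := (volume : Measure UnitAddCircle)) c
      (fun θ : UnitAddCircle => x (Function.update ω n θ))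
    rw [hx, mul_zero] at this
    exact this

/-- Variant of `Dec` for functions of the first `n + 1` coordinates. -/
def DecTop (n : ℕ) (q : C(Y, ℂ)) : Prop :=
  ∃ F ∈ spanTop n, ∃ g : C(Y, ℂ), g.comp (trunc n) = g ∧ ∀ ω, (q ω).re = (F ω).re + (g ω).re

lemma decTop_add {n : ℕ} {q r : C(Y, ℂ)} (hq : DecTop n q) (hr : DecTop n r) :
    DecTop n (q + r) := by
  obtain ⟨F, hF, g, hg, h⟩ := hq
  obtain ⟨F', hF', g', hg', h'⟩ := hr
  refine ⟨F + F', add_mem hF hF', g + g', ?_, fun ω => ?_⟩
  · ext ω
    have h1 := congrArg (fun f : C(Y, ℂ) => f ω) hg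
    have h2 := congrArg (fun f : C(Y, ℂ) => f ω) hg'
    simp only [ContinuousMap.comp_apply] at h1 h2
    simp [h1, h2]
  · simp only [ContinuousMap.add_apply, Complex.add_re, h ω, h' ω]; ring

lemma decTop_smul_mon (n : ℕ) (z : ℂ) (a : ℕ →₀ ℤ) (ha : Low (n + 1) a) :
    DecTop n (z • mon a) := by
  rcases lt_trichotomy (a n) 0 with h | h | h
  · refine ⟨star z • mon (-a), Submodule.smul_mem _ _ (Submodule.subset_span ⟨-a, ⟨by simpa using h,
      fun i hi => by simp [ha i hi]⟩, rfl⟩), 0, by ext; simp, fun ω => ?_⟩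
    rw [← star_mon]
    simp
  · have hl : Low n a := fun i hi => by
      rcases hi.eq_or_lt with rfl | hi
      · exact h
      · exact ha i hi
    refine ⟨0, zero_mem _, z • mon a, ?_, fun ω => by simp⟩
    have h2 : (mon a).comp (trunc n) = mon a := by
      rw [mon_comp_trunc]
      congr 1
      ext i
      rw [Finsupp.filter_apply]
      split_ifs with hi
      · rfl
      · exact (hl i (not_lt.1 hi)).symm
    ext ω
    have := congrArg (fun f : C(Y, ℂ) => f ω) h2
    simp only [ContinuousMap.comp_apply] at this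
    simp [this]
  · exact ⟨z • mon a, Submodule.smul_mem _ _ (Submodule.subset_span ⟨a, ⟨h, fun i hi => ha i hi⟩,
      rfl⟩), 0, by ext; simp, fun ω => by simp⟩

lemma decTop_comp (n : ℕ) {q : C(Y, ℂ)} (hq : q ∈ spanMon) : DecTop n (q.comp (trunc (n + 1))) := by
  have : ∀ z : ℂ, DecTop n (z • q.comp (trunc (n + 1))) := by
    unfold spanMon at hq
    induction hq using Submodule.span_induction with
    | mem x hx =>
      obtain ⟨a, rfl⟩ := hx
      intro z
      rw [mon_comp_trunc]
      exact decTop_smul_mon n z _ (low_filter _ _)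
    | zero => exact fun z => ⟨0, zero_mem _, 0, by ext; simp, fun ω => by simp⟩
    | add x y _ _ hx hy =>
      intro z
      have h : z • (x + y).comp (trunc (n + 1)) =
        z • x.comp (trunc (n + 1)) + z • y.comp (trunc (n + 1)) := by ext; simp [mul_add]
      rw [h]; exact decTop_add (hx z) (hy z)
    | smul c x _ hx =>
      intro z
      have h : z • (c • x).comp (trunc (n + 1)) = (z * c) • x.comp (trunc (n + 1)) := by
        ext; simp [mul_assoc]
      rw [h]; exact hx _
  have h := this 1
  have h2 : (1 : ℂ) • q.comp (trunc (n + 1)) = q.comp (trunc (n + 1)) := by ext; simp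
  rwa [h2] at h

/-- If a real function `v` of the first `n + 1` coordinates has mean at most `ε` over the coordinate
`n`, then `v - ε` is almost dominated by the real part of an element of `I n`. -/
lemma exists_I_re_ge (n : ℕ) (v : C(Y, ℝ)) (hv : ∀ ω, v (trunc (n + 1) ω) = v ω) {ε γ : ℝ}
    (hγ : 0 < γ) (hmean : ∀ ω, ∫ θ : UnitAddCircle, v (Function.update ω n θ) ≤ ε) :
    ∃ F ∈ I n, ∀ ω, v ω - ε - γ ≤ (F ω).re := by
  let U : C(Y, ℂ) := ⟨fun ω => (v ω : ℂ), by fun_prop⟩
  obtain ⟨q, hq, hUq⟩ := exists_spanMon_near U (half_pos hγ)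
  obtain ⟨F, hF, g, hg, h⟩ := decTop_comp n hq
  refine ⟨F, spanPos_le_I n (spanTop_le n hF), fun ω => ?_⟩
  have hnear : ∀ ω, |v ω - (q (trunc (n + 1) ω)).re| ≤ γ / 2 := by
    intro ω
    have h1 : ‖(U - q) (trunc (n + 1) ω)‖ ≤ γ / 2 :=
      ((U - q).norm_coe_le_norm _).trans hUq.le
    have h2 : v ω - (q (trunc (n + 1) ω)).re = ((U - q) (trunc (n + 1) ω)).re := by
      simp [U, hv]
    rw [h2]
    exact (Complex.abs_re_le_norm _).trans h1
  simp only [ContinuousMap.comp_apply] at h
  have hgw : ∀ θ, g (Function.update ω n θ) = g ω := by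
    intro θ
    have h1 := congrArg (fun f : C(Y, ℂ) => f ω) hg
    have h2 := congrArg (fun f : C(Y, ℂ) => f (Function.update ω n θ)) hg
    simp only [ContinuousMap.comp_apply] at h1 h2
    rw [← h1, ← h2]
    congr 1
    ext i
    simp only [trunc_apply]
    split_ifs with hi
    · rw [Function.update_of_ne (by omega)]
    · rfl
  -- the mean of the real part of `g`
  have hre : ∫ θ : UnitAddCircle, (F (Function.update ω n θ)).re = 0 := by
    have h1 := integral_spanTop n hF ω
    have h2 := integral_re (integrable_upd n ω F)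
    simp only [RCLike.re_eq_complex_re] at h2
    rw [h2, h1]; simp
  have hFi : Integrable (fun θ : UnitAddCircle => (F (Function.update ω n θ)).re) :=
    (integrable_upd n ω F).re
  have hvi : Integrable (fun θ : UnitAddCircle => v (Function.update ω n θ)) :=
    (v.continuous.comp (continuous_upd n ω)).integrable_of_hasCompactSupport
      (HasCompactSupport.of_compactSpace _)
  have hgle : (g ω).re ≤ ε + γ / 2 := by
    have h1 : ∀ θ : UnitAddCircle, (g ω).re ≤ v (Function.update ω n θ) + γ / 2 -
        (F (Function.update ω n θ)).re := by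
      intro θ
      have h3 := h (Function.update ω n θ)
      have h4 := abs_le.1 (hnear (Function.update ω n θ))
      rw [hgw θ] at h3
      linarith [h4.1]
    have hvc : Integrable (fun θ : UnitAddCircle => v (Function.update ω n θ) + γ / 2) :=
      hvi.add (integrable_const _)
    have h2 : ∫ _θ : UnitAddCircle, (g ω).re ≤ ∫ θ : UnitAddCircle,
        (v (Function.update ω n θ) + γ / 2 - (F (Function.update ω n θ)).re) :=
      integral_mono (integrable_const _) (hvc.sub hFi) h1
    rw [integral_sub hvc hFi, hre, integral_add hvi (integrable_const _)] at h2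
    simp only [integral_const, smul_eq_mul, volume_real_univ, one_mul, sub_zero] at h2
    linarith [hmean ω]
  have h5 := h ω
  have h6 := abs_le.1 (hnear ω)
  linarith [h6.2]

end Pool.Agent.H261.DR
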