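import Mathlib

set_option autoImplicit false

/-!
# Monomials on the infinite torus and the ideals `I n`
-/

open Set Filter Topology

namespace Pool.Agent.H261.DR

/-- The infinite torus. -/
abbrev Y : Type := ℕ → UnitAddCircle

/-- Replace the coordinates with index at least `n` by `0`. -/
noncomputable def trunc (n : ℕ) : C(Y, Y) :=
  ⟨fun ω i => if i < n then ω i else 0, by
    refine continuous_pi fun i => ?_
    by_cases h : i < n
    · simpa [h] using continuous_apply i
    · simp only [h, if_false]; exact continuous_const⟩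

lemma trunc_apply (n : ℕ) (ω : Y) (i : ℕ) : trunc n ω i = if i < n then ω i else 0 := rfl

/-- The coordinate function. -/
def coord (j : ℕ) : C(Y, UnitAddCircle) := ⟨fun ω => ω j, continuous_apply j⟩

lemma coord_apply (j : ℕ) (ω : Y) : coord j ω = ω j := rfl

/-- The monomials. -/
noncomputable def mon (a : ℕ →₀ ℤ) : C(Y, ℂ) := a.prod fun j k => (fourier k).comp (coord j)

lemma mon_zero : mon 0 = 1 := by simp [mon]

lemma mon_add (a b : ℕ →₀ ℤ) : mon (a + b) = mon a * mon b := by
  unfold mon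
  refine Finsupp.prod_add_index' (fun j => ?_) (fun j k l => ?_)
  · ext ω; simp
  · ext ω; simp

lemma mon_single (j : ℕ) (k : ℤ) : mon (Finsupp.single j k) = (fourier k).comp (coord j) := by
  unfold mon
  refine Finsupp.prod_single_index ?_
  ext ω; simp

lemma mon_apply (a : ℕ →₀ ℤ) (ω : Y) : mon a ω = a.prod fun j k => fourier k (ω j) := by
  simp only [mon, Finsupp.prod]
  rw [ContinuousMap.coe_prod]
  simp [coord_apply]

lemma norm_mon_apply (a : ℕ →₀ ℤ) (ω : Y) : ‖mon a ω‖ = 1 := by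
  rw [mon_apply, Finsupp.prod, norm_prod]
  refine Finset.prod_eq_one fun j _ => ?_
  rw [fourier_apply]; exact Circle.norm_coe _

lemma star_mon (a : ℕ →₀ ℤ) : star (mon a) = mon (-a) := by
  ext ω
  simp only [ContinuousMap.star_apply, mon_apply]
  rw [Finsupp.prod_neg_index (by intro; simp)]
  simp only [Finsupp.prod, star_prod]
  refine Finset.prod_congr rfl fun j _ => ?_
  rw [fourier_neg]; rfl

lemma mon_comp_trunc (a : ℕ →₀ ℤ) (n : ℕ) :
    (mon a).comp (trunc n) = mon (a.filter (· < n)) := by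
  ext ω
  rw [ContinuousMap.comp_apply, mon_apply, mon_apply, Finsupp.prod, Finsupp.prod,
    Finsupp.support_filter, Finset.prod_filter]
  refine Finset.prod_congr rfl fun j _ => ?_
  by_cases h : j < n
  · simp [h, trunc_apply]
  · simp [h, trunc_apply]

/-! ### Totality of the monomials -/

/-- The star subalgebra spanned by the monomials. -/
noncomputable def monAlg : StarSubalgebra ℂ C(Y, ℂ) where
  toSubalgebra := Algebra.adjoin ℂ (range mon)
  star_mem' := by
    intro f hf
    change star f ∈ Algebra.adjoin ℂ (range mon)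
    induction hf using Algebra.adjoin_induction with
    | mem x hx =>
      obtain ⟨a, rfl⟩ := hx
      rw [star_mon]; exact Algebra.subset_adjoin ⟨_, rfl⟩
    | algebraMap r =>
      have : star (algebraMap ℂ C(Y, ℂ) r) = algebraMap ℂ C(Y, ℂ) (star r) := by
        ext; simp
      rw [this]; exact Subalgebra.algebraMap_mem _ _
    | add x y _ _ hx hy => rw [star_add]; exact add_mem hx hy
    | mul x y _ _ hx hy => rw [star_mul']; exact mul_mem hx hy

/-- The linear span of the monomials. -/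
noncomputable def spanMon : Submodule ℂ C(Y, ℂ) := Submodule.span ℂ (range mon)

lemma monAlg_coe : Subalgebra.toSubmodule (Algebra.adjoin ℂ (range mon)) = spanMon := by
  rw [Algebra.adjoin_eq_span, spanMon]
  congr 1
  have : (Submonoid.closure (range mon) : Set C(Y, ℂ)) = range mon := by
    let M : Submonoid C(Y, ℂ) :=
      { carrier := range mon
        mul_mem' := by
          rintro _ _ ⟨a, rfl⟩ ⟨b, rfl⟩; exact ⟨a + b, mon_add a b⟩
        one_mem' := ⟨0, mon_zero⟩ }
    have h : Submonoid.closure (range mon) = M :=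
      le_antisymm (Submonoid.closure_le.2 (fun x hx => hx)) (fun x hx => Submonoid.subset_closure hx)
    rw [h]; rfl
  exact this

lemma spanMon_dense : spanMon.topologicalClosure = ⊤ := by
  have h := ContinuousMap.starSubalgebra_topologicalClosure_eq_top_of_separatesPoints monAlg (by
    intro x y hxy
    obtain ⟨j, hj⟩ := Function.ne_iff.1 hxy
    refine ⟨_, ⟨mon (Finsupp.single j 1), Algebra.subset_adjoin ⟨_, rfl⟩, rfl⟩, ?_⟩
    rw [mon_single]
    simp only [ContinuousMap.comp_apply, coord_apply, fourier_one]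
    intro he
    exact hj (AddCircle.injective_toCircle one_ne_zero (Circle.ext he)))
  rw [← monAlg_coe, eq_top_iff]
  intro x _
  have hx : x ∈ (monAlg.topologicalClosure : Set C(Y, ℂ)) := by rw [h]; trivial
  rw [StarSubalgebra.topologicalClosure_coe] at hx
  exact hx

lemma exists_spanMon_near (g : C(Y, ℂ)) {ε : ℝ} (hε : 0 < ε) : ∃ q ∈ spanMon, ‖g - q‖ < ε := by
  have : g ∈ spanMon.topologicalClosure := by rw [spanMon_dense]; trivial
  obtain ⟨q, hq, h⟩ := Metric.mem_closure_iff.1 this ε hε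
  exact ⟨q, hq, by rwa [← dist_eq_norm]⟩

/-! ### The ideals -/

/-- The last nonzero exponent has index at least `n` and is positive. -/
def Pos (n : ℕ) (a : ℕ →₀ ℤ) : Prop := ∃ j, n ≤ j ∧ 0 < a j ∧ ∀ i, j < i → a i = 0

/-- All exponents with index at least `n` vanish. -/
def Low (n : ℕ) (a : ℕ →₀ ℤ) : Prop := ∀ i, n ≤ i → a i = 0

lemma Pos.mono {m n : ℕ} (h : m ≤ n) {a : ℕ →₀ ℤ} (ha : Pos n a) : Pos m a := by
  obtain ⟨j, h1, h2, h3⟩ := ha
  exact ⟨j, h.trans h1, h2, h3⟩

lemma Pos.add {n : ℕ} {a b : ℕ →₀ ℤ} (ha : Pos n a) (hb : Pos n b) : Pos n (a + b) := by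
  obtain ⟨j, h1, h2, h3⟩ := ha
  obtain ⟨k, g1, g2, g3⟩ := hb
  rcases lt_trichotomy j k with h | h | h
  · exact ⟨k, g1, by simp [h3 k h, g2], fun i hi => by simp [g3 i hi, h3 i (h.trans hi)]⟩
  · subst h
    exact ⟨j, h1, by simp only [Finsupp.add_apply]; omega, fun i hi => by simp [g3 i hi, h3 i hi]⟩
  · exact ⟨j, h1, by simp [g3 j h, h2], fun i hi => by simp [h3 i hi, g3 i (h.trans hi)]⟩

lemma Low.add_pos {n : ℕ} {a b : ℕ →₀ ℤ} (ha : Low n a) (hb : Pos n b) : Pos n (a + b) := by
  obtain ⟨k, g1, g2, g3⟩ := hb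
  exact ⟨k, g1, by simp [ha k g1, g2], fun i hi => by simp [g3 i hi, ha i (g1.trans hi.le)]⟩

lemma low_filter (n : ℕ) (a : ℕ →₀ ℤ) : Low n (a.filter (· < n)) := by
  intro i hi
  rw [Finsupp.filter_apply, if_neg (by omega)]

lemma trichotomy (n : ℕ) (a : ℕ →₀ ℤ) : Low n a ∨ Pos n a ∨ Pos n (-a) := by
  by_cases h : Low n a
  · exact Or.inl h
  · right
    simp only [Low, not_forall] at h
    obtain ⟨i, hi, hai⟩ := h
    have hne : (a.support.filter (n ≤ ·)).Nonempty :=
      ⟨i, by simp [hi, hai]⟩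
    set j := (a.support.filter (n ≤ ·)).max' hne with hj
    have hjm := Finset.max'_mem _ hne
    rw [← hj] at hjm
    simp only [Finset.mem_filter, Finsupp.mem_support_iff] at hjm
    have hlast : ∀ i, j < i → a i = 0 := by
      intro i hi
      by_contra hne'
      have : i ≤ j := Finset.le_max' _ _ (by simp [hne', hjm.2.trans hi.le])
      omega
    rcases lt_or_gt_of_ne hjm.1 with h | h
    · exact Or.inr ⟨j, hjm.2, by simpa using h, fun i hi => by simp [hlast i hi]⟩
    · exact Or.inl ⟨j, hjm.2, h, hlast⟩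

/-- Span of the positive monomials. -/
noncomputable def spanPos (n : ℕ) : Submodule ℂ C(Y, ℂ) := Submodule.span ℂ (mon '' {a | Pos n a})

/-- Closed span of the positive monomials. -/
noncomputable def I (n : ℕ) : Submodule ℂ C(Y, ℂ) := (spanPos n).topologicalClosure

lemma isClosed_I (n : ℕ) : IsClosed (I n : Set C(Y, ℂ)) := Submodule.isClosed_topologicalClosure _

lemma spanPos_le_I (n : ℕ) : spanPos n ≤ I n := Submodule.le_topologicalClosure _

lemma mon_mem_I {n : ℕ} {a : ℕ →₀ ℤ} (ha : Pos n a) : mon a ∈ I n :=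
  spanPos_le_I n (Submodule.subset_span ⟨a, ha, rfl⟩)

lemma I_anti {m n : ℕ} (h : m ≤ n) : I n ≤ I m :=
  Submodule.topologicalClosure_mono (Submodule.span_mono (image_mono fun _ ha => ha.mono h))

/-- A closed submodule containing the positive monomials contains `I n`. -/
lemma I_le_of {n : ℕ} {S : Submodule ℂ C(Y, ℂ)} (hS : IsClosed (S : Set C(Y, ℂ)))
    (h : ∀ a, Pos n a → mon a ∈ S) : I n ≤ S := by
  refine Submodule.topologicalClosure_minimal _ (Submodule.span_le.2 ?_) hS
  rintro _ ⟨a, ha, rfl⟩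
  exact h a ha

/-- A closed submodule containing all monomials is everything. -/
lemma mem_of_mon {S : Submodule ℂ C(Y, ℂ)} (hS : IsClosed (S : Set C(Y, ℂ)))
    (h : ∀ a, mon a ∈ S) (g : C(Y, ℂ)) : g ∈ S := by
  have : spanMon.topologicalClosure ≤ S := by
    refine Submodule.topologicalClosure_minimal _ (Submodule.span_le.2 ?_) hS
    rintro _ ⟨a, rfl⟩
    exact h a
  exact this (by rw [spanMon_dense]; trivial)

/-- The submodule of all `F` with `g * F ∈ I n`. -/
noncomputable def mulIn (n : ℕ) (g : C(Y, ℂ)) : Submodule ℂ C(Y, ℂ) :=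
  (I n).comap (LinearMap.mulLeft ℂ g)

lemma mem_mulIn {n : ℕ} {g F : C(Y, ℂ)} : F ∈ mulIn n g ↔ g * F ∈ I n := Iff.rfl

lemma isClosed_mulIn (n : ℕ) (g : C(Y, ℂ)) : IsClosed (mulIn n g : Set C(Y, ℂ)) :=
  (isClosed_I n).preimage (continuous_const_mul g)

lemma mul_mem_I {n : ℕ} {F G : C(Y, ℂ)} (hF : F ∈ I n) (hG : G ∈ I n) : F * G ∈ I n := by
  have h1 : ∀ a, Pos n a → ∀ G ∈ I n, mon a * G ∈ I n := by
    intro a ha
    have : I n ≤ mulIn n (mon a) := I_le_of (isClosed_mulIn _ _) fun b hb => by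
      rw [mem_mulIn, ← mon_add]; exact mon_mem_I (ha.add hb)
    exact fun G hG => this hG
  have : I n ≤ mulIn n G := I_le_of (isClosed_mulIn _ _) fun a ha => by
    rw [mem_mulIn, mul_comm]; exact h1 a ha G hG
  have h2 := this hF
  rw [mem_mulIn, mul_comm] at h2
  exact h2

/-- Module property over the functions of the first `n` coordinates. -/
lemma comp_trunc_mul_mem_I {n : ℕ} (g : C(Y, ℂ)) {F : C(Y, ℂ)} (hF : F ∈ I n) :
    g.comp (trunc n) * F ∈ I n := by
  have h1 : ∀ a : ℕ →₀ ℤ, mon (a.filter (· < n)) * F ∈ I n := by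
    intro a
    have : I n ≤ mulIn n (mon (a.filter (· < n))) := I_le_of (isClosed_mulIn _ _) fun b hb => by
      rw [mem_mulIn, ← mon_add]; exact mon_mem_I ((low_filter n a).add_pos hb)
    exact this hF
  let c : C(Y, ℂ) →ₗ[ℂ] C(Y, ℂ) := (ContinuousMap.compRightAlgHom ℂ ℂ (trunc n)).toLinearMap
  let S : Submodule ℂ C(Y, ℂ) := (mulIn n F).comap c
  have hS : IsClosed (S : Set C(Y, ℂ)) :=
    (isClosed_mulIn n F).preimage (ContinuousMap.continuous_precomp (trunc n))
  have := mem_of_mon (S := S) hS (fun a => by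
    change F * ((mon a).comp (trunc n)) ∈ I n
    rw [mon_comp_trunc, mul_comm]; exact h1 a) g
  have h3 : F * g.comp (trunc n) ∈ I n := this
  rwa [mul_comm] at h3

lemma dep_mul_mem_I {n : ℕ} {g : C(Y, ℂ)} (hg : g.comp (trunc n) = g) {F : C(Y, ℂ)} (hF : F ∈ I n) :
    g * F ∈ I n := by
  rw [← hg]; exact comp_trunc_mul_mem_I g hF

end Pool.Agent.H261.DR
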