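import Pool.Agent.H261.DR.Bump
import Pool.Agent.H261.DR.Alg

set_option autoImplicit false

/-!
# Construction of the map to the interval
-/

open Set Filter Topology MeasureTheory

namespace Pool.Agent.H261.DR

/-! ### A dense sequence with dependence on few coordinates -/

/-- Recurring dense sequence; `cseq n` depends on the first `n` coordinates. -/
noncomputable def cseq (n : ℕ) : C(Y, ℂ) :=
  (TopologicalSpace.denseSeq C(Y, ℂ) n.unpair.1).comp (trunc n)

lemma trunc_trunc {m n : ℕ} (h : m ≤ n) (ω : Y) : trunc m (trunc n ω) = trunc m ω := by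
  ext i
  simp only [trunc_apply]
  split_ifs with h1 h2
  · rfl
  · omega
  · rfl

lemma cseq_trunc {m n : ℕ} (h : m ≤ n) (ω : Y) : cseq m (trunc n ω) = cseq m ω := by
  simp only [cseq, ContinuousMap.comp_apply, trunc_trunc h]

lemma cseq_near (φ : C(Y, ℂ)) {ε : ℝ} (hε : 0 < ε) (N : ℕ) : ∃ n ≥ N, ∀ ω, ‖φ ω - cseq n ω‖ ≤ ε := by
  obtain ⟨_, hd, i, rfl⟩ := Metric.dense_iff.1 (TopologicalSpace.denseRange_denseSeq C(Y, ℂ)) φ
    (ε / 2) (half_pos hε)
  obtain ⟨N', hN'⟩ := exists_comp_trunc_near (TopologicalSpace.denseSeq C(Y, ℂ) i) (half_pos hε)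
  set n := Nat.pair i (max N N') with hn
  have hge : max N N' ≤ n := Nat.right_le_pair _ _
  refine ⟨n, (le_max_left _ _).trans hge, fun ω => ?_⟩
  have e1 : cseq n = (TopologicalSpace.denseSeq C(Y, ℂ) i).comp (trunc n) := by
    rw [cseq, hn, Nat.unpair_pair]
  rw [e1, ContinuousMap.comp_apply]
  set d := TopologicalSpace.denseSeq C(Y, ℂ) i with hdd
  have h1 : ‖φ ω - d ω‖ ≤ ε / 2 := by
    rw [Metric.mem_ball, dist_comm, dist_eq_norm] at hd
    exact ((φ - d).norm_coe_le_norm ω).trans hd.le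
  have h2 := (hN' n ((le_max_right _ _).trans hge) ω).le
  have h3 : φ ω - d (trunc n ω) = (φ ω - d ω) - (d (trunc n ω) - d ω) := by ring
  rw [h3]
  refine (norm_sub_le _ _).trans ?_
  linarith

/-! ### Parameters -/

/-- The smoothing widths. -/
noncomputable def eta (n : ℕ) : ℝ := 1 / (n + 2)

lemma eta_pos (n : ℕ) : 0 < eta n := by unfold eta; positivity

lemma eta_le_one (n : ℕ) : eta n ≤ 1 := by
  unfold eta
  rw [div_le_one (by positivity)]
  have : (0 : ℝ) ≤ n := Nat.cast_nonneg n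
  linarith

/-- The size of the digits. -/
noncomputable def Bd (n : ℕ) : ℝ := (n + 1) * ‖cseq n‖ + 2

lemma Bd_ge (n : ℕ) : 2 ≤ Bd n := by unfold Bd; linarith [show 0 ≤ (n + 1 : ℝ) * ‖cseq n‖ by positivity]

/-- The base. -/
noncomputable def Wd (n : ℕ) : ℕ := ⌈4 * Bd n⌉₊ + 1

lemma Wd_gt (n : ℕ) : 4 * Bd n < Wd n := by
  unfold Wd
  have := Nat.le_ceil (4 * Bd n)
  push_cast
  linarith

lemma Wd_ge (n : ℕ) : (8 : ℝ) ≤ Wd n := by
  have := Wd_gt n
  have := Bd_ge n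
  linarith

/-- The scales. -/
noncomputable def sg : ℕ → ℝ
  | 0 => 1 / (24 * (Wd 0 : ℝ) ^ 2)
  | n + 1 => sg n / (48 * (Wd (n + 1) : ℝ) ^ 2)

lemma Wd_pos (n : ℕ) : (0 : ℝ) < Wd n := by linarith [Wd_ge n]

lemma sg_pos (n : ℕ) : 0 < sg n := by
  induction n with
  | zero => have := Wd_pos 0; simp only [sg]; positivity
  | succ n ih => have := Wd_pos (n + 1); simp only [sg]; positivity

lemma sg_zero : 3 * sg 0 * (Wd 0 : ℝ) ^ 2 = 1 / 8 := by
  have := Wd_pos 0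
  simp only [sg]
  field_simp
  norm_num

lemma sg_zero_le : sg 0 ≤ 1 / 24 := by
  have h := sg_zero
  have h2 := Wd_ge 0
  have h3 := sg_pos 0
  have h4 : (1 : ℝ) ≤ (Wd 0 : ℝ) ^ 2 := by nlinarith
  nlinarith

lemma sg_succ (n : ℕ) : 3 * sg (n + 1) * (Wd (n + 1) : ℝ) ^ 2 = sg n / 16 := by
  have := Wd_pos (n + 1)
  simp only [sg]
  field_simp
  ring

lemma sg_succ_le (n : ℕ) : sg (n + 1) ≤ sg n / 16 := by
  have h := sg_succ n
  have h2 := Wd_ge (n + 1)
  have h3 := sg_pos (n + 1)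
  have h4 : (1 : ℝ) ≤ (Wd (n + 1) : ℝ) ^ 2 := by nlinarith
  nlinarith

lemma sg_add_le (n k : ℕ) : sg (n + k) ≤ sg n * (1 / 16) ^ k := by
  induction k with
  | zero => simp
  | succ k ih =>
    have := sg_succ_le (n + k)
    rw [← add_assoc, pow_succ]
    linarith

/-! ### The recursion -/

/-- The offset. -/
noncomputable def tau (n : ℕ) (ω : Y) : ℝ := 2 * ‖ω n‖

lemma continuous_tau (n : ℕ) : Continuous (tau n) := by unfold tau; fun_prop

lemma tau_nonneg (n : ℕ) (ω : Y) : 0 ≤ tau n ω := by unfold tau; positivity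

lemma tau_le (n : ℕ) (ω : Y) : tau n ω ≤ 1 := by
  unfold tau
  have := AddCircle.norm_le_half_period (1 : ℝ) one_ne_zero (x := ω n)
  rw [abs_one] at this
  linarith

/-- The digit function. -/
noncomputable def dg (n : ℕ) (t : ℝ) (ω : Y) : ℝ := sfl (eta n) (t + tau n ω)

lemma dg_near (n : ℕ) (t : ℝ) (ω : Y) : |dg n t ω - t| ≤ 2 := by
  have h1 := abs_sfl_sub_le (eta_pos n) (t + tau n ω)
  have h2 := tau_nonneg n ω
  have h3 := tau_le n ω
  unfold dg
  rw [abs_le] at *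
  constructor <;> linarith [h1.1, h1.2]

lemma continuous_dg (n : ℕ) {t : Y → ℝ} (ht : Continuous t) : Continuous fun ω => dg n (t ω) ω :=
  (continuous_sfl (eta_pos n) (eta_le_one n)).comp (ht.add (continuous_tau n))

/-- First argument. -/
noncomputable def t0 (n : ℕ) (x : C(Y, ℝ)) (ω : Y) : ℝ := x ω / (sg n * (Wd n : ℝ) ^ 2)
/-- Second argument. -/
noncomputable def t1 (n : ℕ) (ω : Y) : ℝ := (n + 1) * (cseq n ω).re
/-- Third argument. -/
noncomputable def t2 (n : ℕ) (ω : Y) : ℝ := (n + 1) * (cseq n ω).im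

lemma continuous_t0 (n : ℕ) (x : C(Y, ℝ)) : Continuous (t0 n x) := by unfold t0; fun_prop
lemma continuous_t1 (n : ℕ) : Continuous (t1 n) := by unfold t1; fun_prop
lemma continuous_t2 (n : ℕ) : Continuous (t2 n) := by unfold t2; fun_prop

lemma abs_t1_le (n : ℕ) (ω : Y) : |t1 n ω| ≤ Bd n - 2 := by
  unfold t1 Bd
  rw [abs_mul, abs_of_pos (by positivity : (0 : ℝ) < n + 1)]
  have : |(cseq n ω).re| ≤ ‖cseq n‖ := (Complex.abs_re_le_norm _).trans ((cseq n).norm_coe_le_norm ω)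
  have h : (n + 1 : ℝ) * |(cseq n ω).re| ≤ (n + 1) * ‖cseq n‖ := by gcongr
  linarith

lemma abs_t2_le (n : ℕ) (ω : Y) : |t2 n ω| ≤ Bd n - 2 := by
  unfold t2 Bd
  rw [abs_mul, abs_of_pos (by positivity : (0 : ℝ) < n + 1)]
  have : |(cseq n ω).im| ≤ ‖cseq n‖ := (Complex.abs_im_le_norm _).trans ((cseq n).norm_coe_le_norm ω)
  have h : (n + 1 : ℝ) * |(cseq n ω).im| ≤ (n + 1) * ‖cseq n‖ := by gcongr
  linarith

lemma abs_dg1_le (n : ℕ) (ω : Y) : |dg n (t1 n ω) ω| ≤ Bd n := by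
  have h1 := dg_near n (t1 n ω) ω
  have h2 := abs_t1_le n ω
  rw [abs_le] at *
  constructor <;> linarith [h1.1, h1.2, h2.1, h2.2]

lemma abs_dg2_le (n : ℕ) (ω : Y) : |dg n (t2 n ω) ω| ≤ Bd n := by
  have h1 := dg_near n (t2 n ω) ω
  have h2 := abs_t2_le n ω
  rw [abs_le] at *
  constructor <;> linarith [h1.1, h1.2, h2.1, h2.2]

/-- The recursion. -/
noncomputable def xs : ℕ → C(Y, ℝ)
  | 0 => ContinuousMap.const Y (1 / 2)
  | n + 1 => ⟨fun ω => sg n * ((Wd n : ℝ) ^ 2 * dg n (t0 n (xs n) ω) ω +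
      Wd n * dg n (t1 n ω) ω + dg n (t2 n ω) ω), by
        have h0 := continuous_dg n (continuous_t0 n (xs n))
        have h1 := continuous_dg n (continuous_t1 n)
        have h2 := continuous_dg n (continuous_t2 n)
        fun_prop⟩

lemma xs_zero (ω : Y) : xs 0 ω = 1 / 2 := by simp [xs]

lemma xs_succ (n : ℕ) (ω : Y) : xs (n + 1) ω = sg n * ((Wd n : ℝ) ^ 2 * dg n (t0 n (xs n) ω) ω +
      Wd n * dg n (t1 n ω) ω + dg n (t2 n ω) ω) := by
  rw [xs]; rfl

lemma tau_trunc {m n : ℕ} (h : m < n) (ω : Y) : tau m (trunc n ω) = tau m ω := by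
  unfold tau
  rw [trunc_apply, if_pos h]

lemma xs_trunc (n : ℕ) : ∀ m ≥ n, ∀ ω, xs n (trunc m ω) = xs n ω := by
  induction n with
  | zero => intro m _ ω; rw [xs_zero, xs_zero]
  | succ n ih =>
    intro m hm ω
    rw [xs_succ, xs_succ]
    simp only [dg, t0, t1, t2, ih m (by omega), cseq_trunc (show n ≤ m by omega),
      tau_trunc (show n < m by omega)]

lemma xs_step (n : ℕ) : dist (xs n) (xs (n + 1)) ≤ 3 * sg n * (Wd n : ℝ) ^ 2 := by
  have hs := sg_pos n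
  have hW := Wd_gt n
  have hB := Bd_ge n
  have hWp := Wd_pos n
  rw [ContinuousMap.dist_le (by positivity)]
  intro ω
  rw [Real.dist_eq, abs_sub_comm, xs_succ]
  set W : ℝ := (Wd n : ℝ) with hWd
  have e1 : sg n * (W ^ 2 * dg n (t0 n (xs n) ω) ω + W * dg n (t1 n ω) ω + dg n (t2 n ω) ω) - xs n ω
      = sg n * (W ^ 2 * (dg n (t0 n (xs n) ω) ω - t0 n (xs n) ω) + W * dg n (t1 n ω) ω +
        dg n (t2 n ω) ω) := by
    have : xs n ω = sg n * (W ^ 2 * t0 n (xs n) ω) := by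
      unfold t0
      rw [← hWd]
      field_simp
    linear_combination -this
  rw [e1, abs_mul, abs_of_pos hs]
  have h0 := dg_near n (t0 n (xs n) ω) ω
  have h1 := abs_dg1_le n ω
  have h2 := abs_dg2_le n ω
  have e2 : |W ^ 2 * (dg n (t0 n (xs n) ω) ω - t0 n (xs n) ω) + W * dg n (t1 n ω) ω +
        dg n (t2 n ω) ω| ≤ W ^ 2 * 2 + W * Bd n + Bd n := by
    refine (abs_add_le _ _).trans (add_le_add ((abs_add_le _ _).trans (add_le_add ?_ ?_)) h2)
    · rw [abs_mul, abs_of_pos (by positivity)]; gcongr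
    · rw [abs_mul, abs_of_pos hWp]; gcongr
  have e3 : W ^ 2 * 2 + W * Bd n + Bd n ≤ 3 * W ^ 2 := by nlinarith
  calc sg n * |W ^ 2 * (dg n (t0 n (xs n) ω) ω - t0 n (xs n) ω) + W * dg n (t1 n ω) ω +
        dg n (t2 n ω) ω| ≤ sg n * (3 * W ^ 2) := by gcongr; exact e2.trans e3
    _ = 3 * sg n * W ^ 2 := by ring

lemma xs_step' (n k : ℕ) : dist (xs (n + 1 + k)) (xs (n + 1 + k + 1)) ≤ sg n / 16 * (1 / 16) ^ k := by
  have h1 := xs_step (n + 1 + k)
  have e1 : n + 1 + k = (n + k) + 1 := by ring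
  rw [e1] at h1 ⊢
  rw [sg_succ] at h1
  have h2 := sg_add_le n k
  linarith

/-- The limit function. -/
noncomputable def xlim : C(Y, ℝ) := limUnder atTop xs

lemma tendsto_xs : Tendsto xs atTop (𝓝 xlim) := by
  have h1 : CauchySeq fun k => xs (0 + 1 + k) :=
    cauchySeq_of_le_geometric (1 / 16) (sg 0 / 16) (by norm_num) (xs_step' 0)
  obtain ⟨a, ha⟩ := cauchySeq_tendsto_of_complete h1
  have h2 : Tendsto xs atTop (𝓝 a) := by
    rw [← tendsto_add_atTop_iff_nat 1]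
    have : (fun n => xs (n + 1)) = fun k => xs (0 + 1 + k) := by
      ext1 n; congr 1; ring
    rw [this]; exact ha
  exact tendsto_nhds_limUnder ⟨a, h2⟩

lemma dist_xs_xlim (n : ℕ) : dist (xs (n + 1)) xlim ≤ sg n / 4 := by
  have h1 : Tendsto (fun k => xs (n + 1 + k)) atTop (𝓝 xlim) := by
    have := (tendsto_add_atTop_iff_nat (n + 1)).2 tendsto_xs
    have h : (fun k => xs (n + 1 + k)) = fun k => xs (k + (n + 1)) := by
      ext1 k; congr 1; ring
    rw [h]; exact this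
  have h2 := dist_le_of_le_geometric_of_tendsto₀ (1 / 16) (sg n / 16) (by norm_num) (xs_step' n) h1
  have h3 := sg_pos n
  have h4 : sg n / 16 / (1 - 1 / 16) ≤ sg n / 4 := by
    rw [div_le_iff₀ (by norm_num)]
    linarith
  exact h2.trans h4

lemma xlim_mem (ω : Y) : xlim ω ∈ Icc (0 : ℝ) 1 := by
  have h1 := xs_step 0
  rw [sg_zero] at h1
  have h2 := dist_xs_xlim 0
  have h3 := sg_zero_le
  have e1 := (ContinuousMap.dist_apply_le_dist (f := xs 0) (g := xs (0 + 1)) ω).trans h1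
  have e2 := (ContinuousMap.dist_apply_le_dist (f := xs (0 + 1)) (g := xlim) ω).trans h2
  rw [xs_zero, Real.dist_eq] at e1
  rw [Real.dist_eq] at e2
  rw [abs_le] at e1 e2
  constructor <;> linarith [e1.1, e1.2, e2.1, e2.2]

/-- The map to the interval. -/
noncomputable def Phi : C(Y, unitInterval) :=
  ⟨fun ω => ⟨xlim ω, xlim_mem ω⟩, by fun_prop⟩

lemma dist_Phi (ω ω' : Y) : dist (Phi ω) (Phi ω') = |xlim ω - xlim ω'| := rfl

/-! ### The exceptional functions -/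

/-- The exceptional functions. -/
noncomputable def ue (n : ℕ) : C(Y, ℝ) :=
  ⟨fun ω => min 1 (bump (eta n) ((t0 n (xs n) ω + tau n ω : ℝ) : UnitAddCircle) +
    bump (eta n) ((t1 n ω + tau n ω : ℝ) : UnitAddCircle) +
    bump (eta n) ((t2 n ω + tau n ω : ℝ) : UnitAddCircle)), by
      have hb := continuous_bump (eta n)
      have h0 : Continuous fun ω => ((t0 n (xs n) ω + tau n ω : ℝ) : UnitAddCircle) :=
        (AddCircle.continuous_mk' 1).comp ((continuous_t0 n (xs n)).add (continuous_tau n))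
      have h1 : Continuous fun ω => ((t1 n ω + tau n ω : ℝ) : UnitAddCircle) :=
        (AddCircle.continuous_mk' 1).comp ((continuous_t1 n).add (continuous_tau n))
      have h2 : Continuous fun ω => ((t2 n ω + tau n ω : ℝ) : UnitAddCircle) :=
        (AddCircle.continuous_mk' 1).comp ((continuous_t2 n).add (continuous_tau n))
      exact continuous_const.min (((hb.comp h0).add (hb.comp h1)).add (hb.comp h2))⟩

lemma ue_apply (n : ℕ) (ω : Y) : ue n ω =
    min 1 (bump (eta n) ((t0 n (xs n) ω + tau n ω : ℝ) : UnitAddCircle) +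
    bump (eta n) ((t1 n ω + tau n ω : ℝ) : UnitAddCircle) +
    bump (eta n) ((t2 n ω + tau n ω : ℝ) : UnitAddCircle)) := rfl

lemma ue_nonneg (n : ℕ) (ω : Y) : 0 ≤ ue n ω := by
  rw [ue_apply]
  refine le_min zero_le_one (add_nonneg (add_nonneg ?_ ?_) ?_) <;> exact bump_nonneg _ _

lemma ue_le (n : ℕ) (ω : Y) : ue n ω ≤ 1 := min_le_left _ _

lemma ue_trunc (n : ℕ) (ω : Y) : ue n (trunc (n + 1) ω) = ue n ω := by
  simp only [ue_apply, t0, t1, t2, xs_trunc n (n + 1) (Nat.le_succ n),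
    cseq_trunc (Nat.le_succ n), tau_trunc (Nat.lt_succ_self n)]

lemma trunc_update (n : ℕ) (ω : Y) (θ : UnitAddCircle) :
    trunc n (Function.update ω n θ) = trunc n ω := by
  ext i
  simp only [trunc_apply]
  split_ifs with hi
  · rw [Function.update_of_ne (by omega)]
  · rfl

lemma ue_mean (n : ℕ) (ω : Y) :
    ∫ θ : UnitAddCircle, ue n (Function.update ω n θ) ≤ 12 * eta n := by
  have hx : ∀ θ, xs n (Function.update ω n θ) = xs n ω := fun θ => by
    rw [← xs_trunc n n le_rfl (Function.update ω n θ), trunc_update, xs_trunc n n le_rfl]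
  have hc : ∀ θ, cseq n (Function.update ω n θ) = cseq n ω := fun θ => by
    rw [← cseq_trunc (le_refl n) (Function.update ω n θ), trunc_update, cseq_trunc le_rfl]
  have hτ : ∀ θ, tau n (Function.update ω n θ) = 2 * ‖θ‖ := fun θ => by
    unfold tau; rw [Function.update_self]
  have hcb : ∀ t : ℝ, Continuous fun θ : UnitAddCircle =>
      bump (eta n) ((t + 2 * ‖θ‖ : ℝ) : UnitAddCircle) := fun t =>
    (continuous_bump (eta n)).comp ((AddCircle.continuous_mk' 1).comp (by fun_prop))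
  have hle : ∀ θ, ue n (Function.update ω n θ) ≤
      bump (eta n) ((t0 n (xs n) ω + 2 * ‖θ‖ : ℝ) : UnitAddCircle) +
      bump (eta n) ((t1 n ω + 2 * ‖θ‖ : ℝ) : UnitAddCircle) +
      bump (eta n) ((t2 n ω + 2 * ‖θ‖ : ℝ) : UnitAddCircle) := by
    intro θ
    rw [ue_apply]
    refine (min_le_right _ _).trans (le_of_eq ?_)
    simp only [t0, t1, t2, hx, hc, hτ]
  have hi : ∀ t : ℝ, Integrable fun θ : UnitAddCircle =>
      bump (eta n) ((t + 2 * ‖θ‖ : ℝ) : UnitAddCircle) := fun t => integrable_of_cont (hcb t)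
  calc ∫ θ : UnitAddCircle, ue n (Function.update ω n θ)
      ≤ ∫ θ : UnitAddCircle, (bump (eta n) ((t0 n (xs n) ω + 2 * ‖θ‖ : ℝ) : UnitAddCircle) +
        bump (eta n) ((t1 n ω + 2 * ‖θ‖ : ℝ) : UnitAddCircle) +
        bump (eta n) ((t2 n ω + 2 * ‖θ‖ : ℝ) : UnitAddCircle)) := by
        refine integral_mono ?_ (((hi _).add (hi _)).add (hi _)) hle
        exact integrable_of_cont ((ue n).continuous.comp (continuous_upd n ω))
    _ = (∫ θ : UnitAddCircle, bump (eta n) ((t0 n (xs n) ω + 2 * ‖θ‖ : ℝ) : UnitAddCircle)) +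
        (∫ θ : UnitAddCircle, bump (eta n) ((t1 n ω + 2 * ‖θ‖ : ℝ) : UnitAddCircle)) +
        ∫ θ : UnitAddCircle, bump (eta n) ((t2 n ω + 2 * ‖θ‖ : ℝ) : UnitAddCircle) := by
        have h01 : Integrable fun θ : UnitAddCircle =>
            bump (eta n) ((t0 n (xs n) ω + 2 * ‖θ‖ : ℝ) : UnitAddCircle) +
            bump (eta n) ((t1 n ω + 2 * ‖θ‖ : ℝ) : UnitAddCircle) := (hi _).add (hi _)
        rw [integral_add h01 (hi _), integral_add (hi _) (hi _)]
    _ ≤ 12 * eta n := by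
        have h0 := integral_bump_shift_le (eta_pos n) (t0 n (xs n) ω)
        have h1 := integral_bump_shift_le (eta_pos n) (t1 n ω)
        have h2 := integral_bump_shift_le (eta_pos n) (t2 n ω)
        linarith

lemma good_digits {n : ℕ} {ω : Y} (h : ue n ω < 1) :
    dg n (t0 n (xs n) ω) ω = ⌊t0 n (xs n) ω + tau n ω⌋ ∧
    dg n (t1 n ω) ω = ⌊t1 n ω + tau n ω⌋ ∧ dg n (t2 n ω) ω = ⌊t2 n ω + tau n ω⌋ := by
  rw [ue_apply] at h
  have h0 := bump_nonneg (eta n) ((t0 n (xs n) ω + tau n ω : ℝ) : UnitAddCircle)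
  have h1 := bump_nonneg (eta n) ((t1 n ω + tau n ω : ℝ) : UnitAddCircle)
  have h2 := bump_nonneg (eta n) ((t2 n ω + tau n ω : ℝ) : UnitAddCircle)
  have hlt : bump (eta n) ((t0 n (xs n) ω + tau n ω : ℝ) : UnitAddCircle) +
    bump (eta n) ((t1 n ω + tau n ω : ℝ) : UnitAddCircle) +
    bump (eta n) ((t2 n ω + tau n ω : ℝ) : UnitAddCircle) < 1 := by
    by_contra hne
    rw [min_eq_left (not_lt.1 hne)] at h
    exact lt_irrefl _ h
  have key : ∀ r : ℝ, bump (eta n) (r : UnitAddCircle) < 1 → sfl (eta n) r = ⌊r⌋ := by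
    intro r hr
    apply sfl_eq_floor_of_norm (eta_pos n)
    by_contra hne
    rw [bump_eq_one (eta_pos n) (not_lt.1 hne)] at hr
    exact lt_irrefl _ hr
  exact ⟨key _ (by linarith), key _ (by linarith), key _ (by linarith)⟩

/-- Uniqueness of digits. -/
lemma digits_eq {W : ℤ} {a b c a' b' c' : ℤ} (hW : 0 < W) (hb : |b - b'| < W) (hc : |c - c'| < W)
    (h : W ^ 2 * a + W * b + c = W ^ 2 * a' + W * b' + c') : b = b' ∧ c = c' := by
  have h1 : W ∣ c - c' := ⟨W * (a' - a) + (b' - b), by linear_combination h⟩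
  have h2 : c - c' = 0 := Int.eq_zero_of_abs_lt_dvd h1 hc
  have h3 : W * (W * (a - a') + (b - b')) = 0 := by linear_combination h - h2
  have h4 : W * (a - a') + (b - b') = 0 := by
    rcases mul_eq_zero.1 h3 with h | h
    · omega
    · exact h
  have h5 : W ∣ b - b' := ⟨a' - a, by linear_combination h4⟩
  have h6 : b - b' = 0 := Int.eq_zero_of_abs_lt_dvd h5 hb
  constructor <;> omega

lemma sep_cseq {n : ℕ} {ω ω' : Y} (h : ue n ω < 1) (h' : ue n ω' < 1)
    (hd : dist (Phi ω) (Phi ω') ≤ sg n / 4) : ‖cseq n ω - cseq n ω'‖ ≤ 8 / (n + 1) := by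
  obtain ⟨e0, e1, e2⟩ := good_digits h
  obtain ⟨e0', e1', e2'⟩ := good_digits h'
  have hs := sg_pos n
  have hWp := Wd_pos n
  have hWg := Wd_gt n
  have hx := xs_succ n ω
  have hx' := xs_succ n ω'
  have b1 := abs_dg1_le n ω
  have b2 := abs_dg2_le n ω
  have b1' := abs_dg1_le n ω'
  have b2' := abs_dg2_le n ω'
  have n1 := dg_near n (t1 n ω) ω
  have n2 := dg_near n (t2 n ω) ω
  have n1' := dg_near n (t1 n ω') ω'
  have n2' := dg_near n (t2 n ω') ω'
  rw [e0, e1, e2] at hx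
  rw [e0', e1', e2'] at hx'
  rw [e1] at b1 n1
  rw [e2] at b2 n2
  rw [e1'] at b1' n1'
  rw [e2'] at b2' n2'
  set a := ⌊t0 n (xs n) ω + tau n ω⌋
  set b := ⌊t1 n ω + tau n ω⌋
  set c := ⌊t2 n ω + tau n ω⌋
  set a' := ⌊t0 n (xs n) ω' + tau n ω'⌋
  set b' := ⌊t1 n ω' + tau n ω'⌋
  set c' := ⌊t2 n ω' + tau n ω'⌋
  rw [dist_Phi] at hd
  have d1 := (ContinuousMap.dist_apply_le_dist (f := xs (n + 1)) (g := xlim) ω).trans
    (dist_xs_xlim n)
  have d2 := (ContinuousMap.dist_apply_le_dist (f := xs (n + 1)) (g := xlim) ω').trans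
    (dist_xs_xlim n)
  rw [Real.dist_eq] at d1 d2
  have hclose : |xs (n + 1) ω - xs (n + 1) ω'| < sg n := by
    rw [abs_le] at d1 d2 hd
    rw [abs_lt]
    constructor <;> linarith [d1.1, d1.2, d2.1, d2.2, hd.1, hd.2]
  have hV : |(((Wd n : ℤ) ^ 2 * a + (Wd n : ℤ) * b + c - ((Wd n : ℤ) ^ 2 * a' + (Wd n : ℤ) * b' + c') : ℤ) : ℝ)| < 1 := by
    have e : xs (n + 1) ω - xs (n + 1) ω' = sg n * (((Wd n : ℤ) ^ 2 * a + (Wd n : ℤ) * b + c -
        ((Wd n : ℤ) ^ 2 * a' + (Wd n : ℤ) * b' + c') : ℤ) : ℝ) := by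
      rw [hx, hx']; push_cast; ring
    rw [e, abs_mul, abs_of_pos hs] at hclose
    by_contra hne
    push Not at hne
    have : sg n * 1 ≤ sg n * |(((Wd n : ℤ) ^ 2 * a + (Wd n : ℤ) * b + c -
        ((Wd n : ℤ) ^ 2 * a' + (Wd n : ℤ) * b' + c') : ℤ) : ℝ)| := by gcongr
    linarith
  have hV0 : (Wd n : ℤ) ^ 2 * a + (Wd n : ℤ) * b + c - ((Wd n : ℤ) ^ 2 * a' + (Wd n : ℤ) * b' + c') = 0 := by
    rw [← Int.cast_abs] at hV
    have : |(Wd n : ℤ) ^ 2 * a + (Wd n : ℤ) * b + c - ((Wd n : ℤ) ^ 2 * a' + (Wd n : ℤ) * b' + c')| < 1 := by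
      exact_mod_cast hV
    exact Int.abs_lt_one_iff.1 this
  have hWi : (0 : ℤ) < Wd n := by exact_mod_cast hWp
  have hbd : |b - b'| < (Wd n : ℤ) := by
    have : |(b : ℝ) - b'| < Wd n := by
      rw [abs_le] at b1 b1'
      rw [abs_lt]
      constructor <;> linarith [b1.1, b1.2, b1'.1, b1'.2, Bd_ge n]
    exact_mod_cast this
  have hcd : |c - c'| < (Wd n : ℤ) := by
    have : |(c : ℝ) - c'| < Wd n := by
      rw [abs_le] at b2 b2'
      rw [abs_lt]
      constructor <;> linarith [b2.1, b2.2, b2'.1, b2'.2, Bd_ge n]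
    exact_mod_cast this
  obtain ⟨hb, hc⟩ := digits_eq hWi hbd hcd (sub_eq_zero.1 hV0)
  rw [← hb] at n1'
  rw [← hc] at n2'
  have hn1 : (0 : ℝ) < n + 1 := by positivity
  have r1 : |(cseq n ω - cseq n ω').re| ≤ 4 / (n + 1) := by
    rw [le_div_iff₀ hn1, Complex.sub_re, ← abs_of_pos hn1, ← abs_mul]
    have : ((cseq n ω).re - (cseq n ω').re) * ((n : ℝ) + 1) = t1 n ω - t1 n ω' := by
      unfold t1; ring
    rw [this]
    rw [abs_le] at n1 n1' ⊢
    constructor <;> linarith [n1.1, n1.2, n1'.1, n1'.2]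
  have r2 : |(cseq n ω - cseq n ω').im| ≤ 4 / (n + 1) := by
    rw [le_div_iff₀ hn1, Complex.sub_im, ← abs_of_pos hn1, ← abs_mul]
    have : ((cseq n ω).im - (cseq n ω').im) * ((n : ℝ) + 1) = t2 n ω - t2 n ω' := by
      unfold t2; ring
    rw [this]
    rw [abs_le] at n2 n2' ⊢
    constructor <;> linarith [n2.1, n2.2, n2'.1, n2'.2]
  refine (Complex.norm_le_abs_re_add_abs_im _).trans ?_
  have : (8 : ℝ) / (n + 1) = 4 / (n + 1) + 4 / (n + 1) := by ring
  rw [this]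
  exact add_le_add r1 r2

/-- The setup. -/
noncomputable def theSetup : Setup where
  Φ := Phi
  u := ue
  u_nonneg := ue_nonneg
  u_le := ue_le
  re_ge := by
    intro ε hε
    obtain ⟨N, hN⟩ := exists_nat_gt (24 / ε)
    refine ⟨N, fun n hn => ?_⟩
    have h1 : 12 * eta n ≤ ε / 2 := by
      unfold eta
      rw [mul_one_div, div_le_iff₀ (by positivity)]
      have h2 : (N : ℝ) ≤ n := by exact_mod_cast hn
      rw [div_lt_iff₀ hε] at hN
      nlinarith
    obtain ⟨F, hF, h⟩ := exists_I_re_ge n (ue n) (ue_trunc n) (half_pos hε)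
      (fun ω => (ue_mean n ω).trans h1)
    exact ⟨F, hF, fun ω => by linarith [h ω]⟩
  sep := by
    intro φ δ hδ N
    obtain ⟨N', hN'⟩ := exists_nat_gt (16 / δ)
    obtain ⟨n, hn, h⟩ := cseq_near φ (ε := δ / 4) (by positivity) (max N N')
    refine ⟨n, (le_max_left _ _).trans hn, sg n / 4, by linarith [sg_pos n], ?_⟩
    intro ω ω' hω hω' hd
    have h1 := sep_cseq hω hω' hd
    have h2 : (8 : ℝ) / (n + 1) ≤ δ / 2 := by
      rw [div_le_iff₀ (by positivity)]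
      have h2 : (N' : ℝ) ≤ n := by exact_mod_cast (le_max_right _ _).trans hn
      rw [div_lt_iff₀ hδ] at hN'
      nlinarith
    have h3 : φ ω - φ ω' = (φ ω - cseq n ω) + (cseq n ω - cseq n ω') - (φ ω' - cseq n ω') := by ring
    rw [h3]
    have h4 := h ω
    have h5 := h ω'
    calc _ ≤ ‖(φ ω - cseq n ω) + (cseq n ω - cseq n ω')‖ + ‖φ ω' - cseq n ω'‖ := norm_sub_le _ _
      _ ≤ ‖φ ω - cseq n ω‖ + ‖cseq n ω - cseq n ω'‖ + ‖φ ω' - cseq n ω'‖ := by
          gcongr; exact norm_add_le _ _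
      _ ≤ δ := by linarith

/-- The main theorem. -/
theorem exists_dirichlet_regular : ∃ A : Subalgebra ℂ C(unitInterval, ℂ),
    IsClosed (A : Set C(unitInterval, ℂ)) ∧
    (∀ x y : unitInterval, x ≠ y → ∃ f ∈ A, f x ≠ f y) ∧
    A ≠ ⊤ ∧
    (∀ g : C(unitInterval, ℝ), ∀ ε : ℝ, 0 < ε → ∃ f ∈ A, ∀ x, |(f x).re - g x| < ε) ∧
    (∀ K : Set unitInterval, IsClosed K → ∀ p ∉ K, ∃ f ∈ A, f p = 1 ∧ ∀ x ∈ K, f x = 0) := by
  refine ⟨alg theSetup, isClosed_alg _, fun x y hxy => ?_, alg_ne_top _,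
    fun g ε hε => dirichlet_alg _ g hε, fun K hK p hp => regular_alg _ hK hp⟩
  obtain ⟨f, hf, h1, h2⟩ := regular_alg theSetup (isClosed_singleton (x := y)) (p := x)
    (by simpa using hxy)
  refine ⟨f, hf, ?_⟩
  rw [h1, h2 y rfl]
  exact one_ne_zero

end Pool.Agent.H261.DR
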