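import Pool.Agent.H261.DR.Duality

set_option autoImplicit false

/-!
# Solvability modulo the ideal
-/

open Set Filter Topology

namespace Pool.Agent.H261.DR

variable (S : Setup)

/-- Functions vanishing over `K`. -/
def XK (K : Set unitInterval) : Submodule ℂ C(Y, ℂ) where
  carrier := {G | ∀ ω, S.Φ ω ∈ K → G ω = 0}
  add_mem' := by
    intro F G hF hG ω hω
    simp [hF ω hω, hG ω hω]
  zero_mem' := by intro ω _; rfl
  smul_mem' := by
    intro c F hF ω hω
    simp [hF ω hω]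

/-- Elements of the ideal vanishing over `K`. -/
noncomputable def JK (K : Set unitInterval) : Submodule ℂ C(Y, ℂ) := I 0 ⊓ XK S K

/-- Functions vanishing on `K`. -/
def ZK (K : Set unitInterval) : Submodule ℂ C(unitInterval, ℂ) where
  carrier := {G | ∀ x ∈ K, G x = 0}
  add_mem' := by
    intro F G hF hG x hx
    simp [hF x hx, hG x hx]
  zero_mem' := by intro ω _; rfl
  smul_mem' := by
    intro c F hF x hx
    simp [hF x hx]

lemma mem_XK {K : Set unitInterval} {G : C(Y, ℂ)} : G ∈ XK S K ↔ ∀ ω, S.Φ ω ∈ K → G ω = 0 := Iff.rfl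

lemma mem_ZK {K : Set unitInterval} {G : C(unitInterval, ℂ)} : G ∈ ZK K ↔ ∀ x ∈ K, G x = 0 := Iff.rfl

lemma isClosed_XK (K : Set unitInterval) : IsClosed (XK S K : Set C(Y, ℂ)) := by
  have : (XK S K : Set C(Y, ℂ)) = ⋂ ω : Y, ⋂ _ : S.Φ ω ∈ K, {G : C(Y, ℂ) | G ω = 0} := by
    ext G; simp [mem_XK]
  rw [this]
  exact isClosed_iInter fun ω => isClosed_iInter fun _ =>
    isClosed_eq (continuous_eval_const ω) continuous_const

lemma isClosed_JK (K : Set unitInterval) : IsClosed (JK S K : Set C(Y, ℂ)) :=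
  (isClosed_I 0).inter (isClosed_XK S K)

lemma isClosed_ZK (K : Set unitInterval) : IsClosed (ZK K : Set C(unitInterval, ℂ)) := by
  have : (ZK K : Set C(unitInterval, ℂ)) = ⋂ x ∈ K, {G : C(unitInterval, ℂ) | G x = 0} := by
    ext G; simp [mem_ZK]
  rw [this]
  exact isClosed_biInter fun x _ => isClosed_eq (continuous_eval_const x) continuous_const

/-! ### Cutting off -/

/-- A cut-off function which vanishes near `K` and is `1` on `P`. -/
lemma exists_cutoff {K P : Set unitInterval} (hK : IsClosed K) (hP : IsClosed P)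
    (hd : Disjoint K P) : ∃ χ : C(unitInterval, ℝ), (∀ x, χ x ∈ Icc (0 : ℝ) 1) ∧
      (∀ x ∈ P, χ x = 1) ∧ ∃ ρ : ℝ, 0 < ρ ∧ ∀ x, (∃ y ∈ K, dist x y < ρ) → χ x = 0 := by
  obtain ⟨U, hU, hKU, hUP⟩ := normal_exists_closure_subset hK hP.isOpen_compl
    (subset_compl_iff_disjoint_right.2 hd)
  obtain ⟨χ, h0, h1, h01⟩ := exists_continuous_zero_one_of_isClosed (isClosed_closure (s := U)) hP
    (subset_compl_iff_disjoint_right.1 hUP)
  obtain ⟨ρ, hρ, hρU⟩ := hK.isCompact.exists_thickening_subset_open hU hKU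
  refine ⟨χ, h01, fun x hx => h1 hx, ρ, hρ, fun x hx => h0 (subset_closure (hρU ?_))⟩
  rw [Metric.mem_thickening_iff]
  exact hx

/-- The coordinate of the interval as a real function. -/
def ι : C(unitInterval, ℝ) := ⟨fun x => (x : ℝ), continuous_subtype_val⟩

lemma exists_trunc_Φ {ρ : ℝ} (hρ : 0 < ρ) : ∃ N, ∀ n ≥ N, ∀ ω,
    dist (S.Φ (trunc n ω)) (S.Φ ω) < ρ := by
  obtain ⟨N, hN⟩ := exists_comp_trunc_near (ι.comp S.Φ) hρ
  exact ⟨N, fun n hn ω => hN n hn ω⟩

/-- The truncated cut-offs vanish over `K`. -/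
lemma exists_cut_XK {K : Set unitInterval} {χ : C(unitInterval, ℝ)} {ρ : ℝ} (hρ : 0 < ρ)
    (h : ∀ x, (∃ y ∈ K, dist x y < ρ) → χ x = 0) :
    ∃ N, ∀ n ≥ N, ∀ ω, S.Φ ω ∈ K → χ (S.Φ (trunc n ω)) = 0 := by
  obtain ⟨N, hN⟩ := exists_trunc_Φ S hρ
  exact ⟨N, fun n hn ω hω => h _ ⟨_, hω, hN n hn ω⟩⟩

/-- A real function as a complex one. -/
def toC {X : Type*} [TopologicalSpace X] (g : C(X, ℝ)) : C(X, ℂ) :=
  ⟨fun x => (g x : ℂ), by fun_prop⟩

lemma toC_apply {X : Type*} [TopologicalSpace X] (g : C(X, ℝ)) (x : X) : toC g x = (g x : ℂ) := rfl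

/-- Multiplication followed by a functional. -/
noncomputable def mulL (g : C(Y, ℂ)) (L : StrongDual ℂ C(Y, ℂ)) : StrongDual ℂ C(Y, ℂ) :=
  L.comp (ContinuousLinearMap.mul ℂ C(Y, ℂ) g)

lemma mulL_apply (g : C(Y, ℂ)) (L : StrongDual ℂ C(Y, ℂ)) (F : C(Y, ℂ)) :
    mulL g L F = L (g * F) := rfl

lemma claim0 {K : Set unitInterval} (hK : IsClosed K) {L : StrongDual ℂ C(Y, ℂ)}
    (hL : ∀ F ∈ JK S K, L F = 0) {G : C(Y, ℂ)} (hG : G ∈ XK S K) {ε : ℝ} (hε : 0 < ε) :
    ∃ e ∈ ZK K, ‖e‖ ≤ ‖G‖ ∧ ‖L (e.comp S.Φ) - L G‖ ≤ ε := by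
  have hL0 : 0 ≤ ‖L‖ := norm_nonneg L
  set η : ℝ := ε / (2 * (‖L‖ + 1)) with hη
  have hη0 : 0 < η := by positivity
  -- the region where `G` is not small
  set P : Set unitInterval := S.Φ '' {ω | η ≤ ‖G ω‖} with hP
  have hPc : IsClosed P := by
    have : IsClosed {ω : Y | η ≤ ‖G ω‖} := isClosed_le continuous_const (by fun_prop)
    exact (this.isCompact.image S.Φ.continuous).isClosed
  have hd : Disjoint K P := by
    rw [Set.disjoint_left]
    rintro _ hx ⟨ω, hω, rfl⟩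
    have := hG ω hx
    rw [mem_ofPred_eq, this, norm_zero] at hω
    linarith
  obtain ⟨χ, h01, h1, ρ, hρ, h0⟩ := exists_cutoff hK hPc hd
  obtain ⟨N, hN⟩ := exists_cut_XK S hρ h0
  set X : C(Y, ℂ) := toC (χ.comp S.Φ) with hX
  have hXn : ∀ ω, ‖X ω‖ ≤ 1 := by
    intro ω
    rw [hX, toC_apply, Complex.norm_real, ContinuousMap.comp_apply,
      Real.norm_of_nonneg (h01 _).1]
    exact (h01 _).2
  -- the localised functional almost annihilates the ideals
  have hAA : AA (mulL X L) := by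
    intro ε₁ hε₁
    set γ : ℝ := ε₁ / (‖L‖ + 1) with hγ
    have hγ0 : 0 < γ := by positivity
    obtain ⟨N₁, hN₁⟩ := exists_comp_trunc_near X hγ0
    refine ⟨max N N₁, fun n hn F hF => ?_⟩
    have hn1 : N ≤ n := (le_max_left _ _).trans hn
    have hn2 : N₁ ≤ n := (le_max_right _ _).trans hn
    have hmem : X.comp (trunc n) * F ∈ JK S K := by
      refine ⟨I_anti (Nat.zero_le n) (comp_trunc_mul_mem_I X hF), fun ω hω => ?_⟩
      have := hN n hn1 ω hω
      simp only [ContinuousMap.mul_apply, ContinuousMap.comp_apply, hX, toC_apply, this]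
      simp
    have h2 : L (X.comp (trunc n) * F) = 0 := hL _ hmem
    have h3 : mulL X L F = L ((X - X.comp (trunc n)) * F) := by
      rw [mulL_apply, sub_mul, map_sub, h2, sub_zero]
    have h4 : ‖X - X.comp (trunc n)‖ ≤ γ := by
      rw [ContinuousMap.norm_le _ hγ0.le]
      intro ω
      have := (hN₁ n hn2 ω).le
      rw [norm_sub_rev] at this
      exact this
    rw [h3]
    calc ‖L ((X - X.comp (trunc n)) * F)‖ ≤ ‖L‖ * (γ * ‖F‖) :=
          (L.le_opNorm _).trans (by gcongr; exact (norm_mul_le _ _).trans (by gcongr))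
      _ ≤ ε₁ * ‖F‖ := by
          rw [← mul_assoc]
          gcongr
          rw [hγ, mul_div_assoc', div_le_iff₀ (by positivity)]
          nlinarith
  obtain ⟨f, hf, hfL⟩ := (hAA.tame S).exists_factor S G (half_pos hε)
  refine ⟨toC χ * f, fun x hx => ?_, ?_, ?_⟩
  · have : χ x = 0 := h0 x ⟨x, hx, by simpa using hρ⟩
    simp [toC_apply, this]
  · rw [ContinuousMap.norm_le _ (norm_nonneg _)]
    intro x
    rw [ContinuousMap.mul_apply, norm_mul, toC_apply, Complex.norm_real,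
      Real.norm_of_nonneg (h01 _).1]
    calc χ x * ‖f x‖ ≤ 1 * ‖G‖ := mul_le_mul (h01 _).2 (hf x) (norm_nonneg _) zero_le_one
      _ = ‖G‖ := one_mul _
  · have e1 : (toC χ * f).comp S.Φ = X * f.comp S.Φ := by
      ext ω; rfl
    have e2 : ‖X * G - G‖ ≤ η := by
      rw [ContinuousMap.norm_le _ hη0.le]
      intro ω
      rcases lt_or_ge ‖G ω‖ η with h | h
      · have : (X * G - G) ω = ((χ (S.Φ ω) - 1 : ℝ) : ℂ) * G ω := by
          simp only [ContinuousMap.sub_apply, ContinuousMap.mul_apply, hX, toC_apply,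
            ContinuousMap.comp_apply]
          push_cast; ring
        rw [this, norm_mul, Complex.norm_real, Real.norm_eq_abs]
        have h3 := h01 (S.Φ ω)
        have h4 : |χ (S.Φ ω) - 1| ≤ 1 := by
          rw [abs_le]; constructor <;> linarith [h3.1, h3.2]
        calc |χ (S.Φ ω) - 1| * ‖G ω‖ ≤ 1 * η := mul_le_mul h4 h.le (norm_nonneg _) zero_le_one
          _ = η := one_mul _
      · have h5 : χ (S.Φ ω) = 1 := h1 _ ⟨ω, h, rfl⟩
        have : (X * G - G) ω = 0 := by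
          simp only [ContinuousMap.sub_apply, ContinuousMap.mul_apply, hX, toC_apply,
            ContinuousMap.comp_apply, h5]
          push_cast; ring
        rw [this, norm_zero]
        exact hη0.le
    have e3 : L ((toC χ * f).comp S.Φ) - L G =
        (mulL X L (f.comp S.Φ) - mulL X L G) + L (X * G - G) := by
      rw [e1, mulL_apply, mulL_apply, map_sub]; ring
    rw [e3]
    have e4 : ‖L (X * G - G)‖ ≤ ε / 2 := by
      refine (L.le_opNorm _).trans ?_
      calc ‖L‖ * ‖X * G - G‖ ≤ ‖L‖ * η := by gcongr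
        _ ≤ ε / 2 := by
          rw [hη, mul_div_assoc', div_le_iff₀ (by positivity)]
          nlinarith
    calc _ ≤ _ := norm_add_le _ _
      _ ≤ ε / 2 + ε / 2 := add_le_add hfL e4
      _ = ε := by ring

/-! ### Approximate solvability -/

lemma eq_zero_of_re_bdd {z : ℂ} {C : ℝ} (h : ∀ c : ℂ, (c * z).re < C) : z = 0 := by
  obtain ⟨c, -, hcz⟩ := exists_rot z
  by_contra hz
  have hz' : 0 < ‖z‖ := norm_pos_iff.2 hz
  have h1 := h (((C / ‖z‖ : ℝ) : ℂ) * c)
  rw [mul_assoc, hcz, ← Complex.ofReal_mul, Complex.ofReal_re, div_mul_cancel₀ _ hz'.ne'] at h1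
  exact lt_irrefl _ h1

lemma claim1 {K : Set unitInterval} (hK : IsClosed K) {G : C(Y, ℂ)} (hG : G ∈ XK S K) {ε : ℝ}
    (hε : 0 < ε) : ∃ e ∈ ZK K, ∃ F ∈ JK S K, ‖e‖ ≤ ‖G‖ ∧ ‖G - e.comp S.Φ - F‖ < ε := by
  let C : Set C(Y, ℂ) := {H | ∃ e ∈ ZK K, ∃ F ∈ JK S K, ‖e‖ ≤ ‖G‖ ∧ H = e.comp S.Φ + F}
  have hC : Convex ℝ C := by
    rintro _ ⟨e, he, F, hF, hn, rfl⟩ _ ⟨e', he', F', hF', hn', rfl⟩ a b ha hb hab
    refine ⟨(a : ℂ) • e + (b : ℂ) • e', ?_, (a : ℂ) • F + (b : ℂ) • F', ?_, ?_, ?_⟩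
    · exact add_mem (Submodule.smul_mem _ _ he) (Submodule.smul_mem _ _ he')
    · exact add_mem (Submodule.smul_mem _ _ hF) (Submodule.smul_mem _ _ hF')
    · refine (norm_add_le _ _).trans ?_
      rw [norm_smul, norm_smul, Complex.norm_real, Complex.norm_real, Real.norm_of_nonneg ha,
        Real.norm_of_nonneg hb]
      calc a * ‖e‖ + b * ‖e'‖ ≤ a * ‖G‖ + b * ‖G‖ := by gcongr
        _ = ‖G‖ := by rw [← add_mul, hab, one_mul]
    · ext ω
      simp
      ring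
  have hmem : G ∈ closure C := by
    by_contra hne
    obtain ⟨L, s, hLs, hLG⟩ := RCLike.geometric_hahn_banach_closed_point (𝕜 := ℂ) hC.closure
      isClosed_closure hne
    have hLC : ∀ H ∈ C, (L H).re < s := fun H hH => hLs H (subset_closure hH)
    have hLG' : s < (L G).re := hLG
    have hJ : ∀ F ∈ JK S K, L F = 0 := by
      intro F hF
      refine eq_zero_of_re_bdd (C := s) fun c => ?_
      rw [← smul_eq_mul, ← map_smul]
      refine hLC _ ⟨0, zero_mem _, c • F, Submodule.smul_mem _ _ hF, by simp, ?_⟩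
      ext ω; simp
    obtain ⟨e, he, hen, heL⟩ := claim0 S hK hJ hG (ε := (L G).re - s) (by linarith)
    have h1 : (L (e.comp S.Φ)).re < s :=
      hLC _ ⟨e, he, 0, zero_mem _, hen, by simp⟩
    have h2 := (abs_le.1 ((Complex.abs_re_le_norm _).trans heL)).1
    rw [Complex.sub_re] at h2
    linarith
  obtain ⟨H, ⟨e, he, F, hF, hn, rfl⟩, hd⟩ := Metric.mem_closure_iff.1 hmem ε hε
  refine ⟨e, he, F, hF, hn, ?_⟩
  rw [dist_eq_norm] at hd
  have : G - e.comp S.Φ - F = G - (e.comp S.Φ + F) := by ring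
  rwa [this]

/-! ### Iteration -/

/-- A general iteration lemma. -/
lemma iterate_solve {E F : Type*} [NormedAddCommGroup E] [CompleteSpace E] [NormedAddCommGroup F]
    (T : E →+ F) (hT : Continuous T) (Z : AddSubgroup E) (hZ : IsClosed (Z : Set E))
    (X J : AddSubgroup F) (hJ : IsClosed (J : Set F)) (hJX : J ≤ X) (hTZ : ∀ e ∈ Z, T e ∈ X)
    (h : ∀ G ∈ X, ∀ ε : ℝ, 0 < ε → ∃ e ∈ Z, ∃ f ∈ J, ‖e‖ ≤ ‖G‖ ∧ ‖G - T e - f‖ < ε)
    (G : F) (hG : G ∈ X) (r : ℝ) (hr : ‖G‖ < r) : ∃ e ∈ Z, ‖e‖ < r ∧ G - T e ∈ J := by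
  set ε : ℕ → ℝ := fun k => (r - ‖G‖) / 4 * (1 / 2) ^ k with hε
  have hr' : 0 < r - ‖G‖ := sub_pos.2 hr
  have hε0 : ∀ k, 0 < ε k := fun k => by simp only [hε]; positivity
  choose! e he f hf hn hlt using h
  -- the sequence of remainders
  let R : ℕ → X := fun k => Nat.rec (⟨G, hG⟩ : X)
    (fun k P => ⟨P.1 - T (e P.1 (ε k)) - f P.1 (ε k),
      sub_mem (sub_mem P.2 (hTZ _ (he _ P.2 _ (hε0 k)))) (hJX (hf _ P.2 _ (hε0 k)))⟩) k
  have hR0 : (R 0).1 = G := rfl
  have hRs : ∀ k, (R (k + 1)).1 = (R k).1 - T (e (R k).1 (ε k)) - f (R k).1 (ε k) := fun k => rfl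
  set a : ℕ → E := fun k => e (R k).1 (ε k) with ha
  set b : ℕ → F := fun k => f (R k).1 (ε k) with hb
  have haZ : ∀ k, a k ∈ Z := fun k => he _ (R k).2 _ (hε0 k)
  have hbJ : ∀ k, b k ∈ J := fun k => hf _ (R k).2 _ (hε0 k)
  have hRn : ∀ k, ‖(R (k + 1)).1‖ < ε k := fun k => by
    rw [hRs]; exact hlt _ (R k).2 _ (hε0 k)
  have han0 : ‖a 0‖ ≤ ‖G‖ := hn _ (R 0).2 _ (hε0 0)
  have hans : ∀ k, ‖a (k + 1)‖ ≤ ε k := fun k => (hn _ (R (k + 1)).2 _ (hε0 _)).trans (hRn k).le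
  have hgeo : HasSum ε ((r - ‖G‖) / 2) := by
    have := (hasSum_geometric_two).mul_left ((r - ‖G‖) / 4)
    have h2 : (r - ‖G‖) / 4 * 2 = (r - ‖G‖) / 2 := by ring
    rw [h2] at this
    exact this
  have hsum1 : Summable fun k => ‖a (k + 1)‖ :=
    Summable.of_nonneg_of_le (fun _ => norm_nonneg _) hans hgeo.summable
  have hsum : Summable fun k => ‖a k‖ := (summable_nat_add_iff 1).1 hsum1
  have hsa : Summable a := hsum.of_norm
  have hnorm : ‖∑' k, a k‖ < r := by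
    refine (norm_tsum_le_tsum_norm hsum).trans_lt ?_
    rw [hsum.tsum_eq_zero_add]
    have : ∑' k, ‖a (k + 1)‖ ≤ (r - ‖G‖) / 2 := by
      rw [← hgeo.tsum_eq]
      exact hsum1.tsum_le_tsum hans hgeo.summable
    linarith
  have hpart : ∀ k, (R k).1 = G - T (∑ i ∈ Finset.range k, a i) - ∑ i ∈ Finset.range k, b i := by
    intro k
    induction k with
    | zero => simp [hR0]
    | succ k ih =>
      rw [hRs, ih, Finset.sum_range_succ, Finset.sum_range_succ, map_add]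
      simp only [ha, hb]
      rw [ih]
      abel
  have hRlim : Tendsto (fun k => (R k).1) atTop (𝓝 0) := by
    rw [← tendsto_add_atTop_iff_nat 1]
    refine squeeze_zero_norm (fun k => (hRn k).le) ?_
    exact hgeo.summable.tendsto_atTop_zero
  have hTlim : Tendsto (fun k => T (∑ i ∈ Finset.range k, a i)) atTop (𝓝 (T (∑' k, a k))) :=
    (hT.tendsto _).comp hsa.hasSum.tendsto_sum_nat
  have hblim : Tendsto (fun k => ∑ i ∈ Finset.range k, b i) atTop (𝓝 (G - T (∑' k, a k))) := by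
    have h1 : ∀ k, ∑ i ∈ Finset.range k, b i = G - T (∑ i ∈ Finset.range k, a i) - (R k).1 := by
      intro k; rw [hpart k]; abel
    simp only [h1]
    have := (tendsto_const_nhds (x := G)).sub hTlim |>.sub hRlim
    simpa using this
  refine ⟨∑' k, a k, ?_, hnorm, ?_⟩
  · exact hZ.mem_of_tendsto hsa.hasSum.tendsto_sum_nat
      (Eventually.of_forall fun k => AddSubgroup.sum_mem _ fun i _ => haZ i)
  · exact hJ.mem_of_tendsto hblim
      (Eventually.of_forall fun k => AddSubgroup.sum_mem _ fun i _ => hbJ i)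

lemma comp_mem_XK {K : Set unitInterval} {e : C(unitInterval, ℂ)} (he : e ∈ ZK K) :
    e.comp S.Φ ∈ XK S K := fun _ hω => he _ hω

lemma claim2 {K : Set unitInterval} (hK : IsClosed K) {G F₀ : C(Y, ℂ)} (hG : G ∈ XK S K)
    (hF₀ : F₀ ∈ JK S K) {r : ℝ} (hr : ‖G - F₀‖ < r) :
    ∃ e ∈ ZK K, ‖e‖ < r ∧ G - e.comp S.Φ ∈ JK S K := by
  have hX : G - F₀ ∈ XK S K := sub_mem hG hF₀.2
  let T : C(unitInterval, ℂ) →+ C(Y, ℂ) :=
    { toFun := fun e => e.comp S.Φ
      map_zero' := by ext; simp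
      map_add' := by intro a b; ext; simp }
  obtain ⟨e, he, hen, h⟩ := iterate_solve T (ContinuousMap.continuous_precomp S.Φ)
    (ZK K).toAddSubgroup (isClosed_ZK K) (XK S K).toAddSubgroup (JK S K).toAddSubgroup
    (isClosed_JK S K) (fun x hx => hx.2) (fun e he => comp_mem_XK S he)
    (fun G hG ε hε => claim1 S hK hG hε) (G - F₀) hX r hr
  refine ⟨e, he, hen, ?_⟩
  have h2 : G - F₀ - T e + F₀ ∈ JK S K := add_mem h hF₀
  have h3 : G - e.comp S.Φ = G - F₀ - T e + F₀ := by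
    change G - e.comp S.Φ = G - F₀ - e.comp S.Φ + F₀
    ring
  rw [h3]; exact h2

end Pool.Agent.H261.DR
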